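import Mathlib

set_option autoImplicit false

/-!
# The basic estimate

`P ^ 3 * B0 = x * Y`, `Q ^ 3 * B0 = y * X`, `y = x - h`, `θ = (1 - h / x) ^ (1 / 3)`: for integers `a, b`
with `a` close to `θ * b` the integer `P * a - Q * b` is small.
-/

namespace Pool.Agent.CubeGap

open Real

/-- `|P θ - Q| * (B0 * Q ^ 2) ≤ y * |X - Y|`. -/
theorem diff_bound {x y X Y P Q B0 θ : ℝ} (hP0 : 0 ≤ P) (hQ0 : 0 < Q) (hB : 0 < B0) (hx : 0 < x)
    (hy : 0 ≤ y) (hθ0 : 0 ≤ θ) (hθ : θ ^ 3 = y / x) (hP : P ^ 3 * B0 = x * Y)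
    (hQ : Q ^ 3 * B0 = y * X) : |P * θ - Q| * (B0 * Q ^ 2) ≤ y * |X - Y| := by
  have h1 : (P * θ) ^ 3 * B0 = y * Y := by
    rw [mul_pow, hθ]
    field_simp
    linear_combination y * hP
  have h2 : (P * θ - Q) * ((P * θ) ^ 2 + P * θ * Q + Q ^ 2) * B0 = y * (Y - X) := by
    linear_combination h1 - hQ
  have h3 : |P * θ - Q| * ((P * θ) ^ 2 + P * θ * Q + Q ^ 2) * B0 = y * |X - Y| := by
    have h4 := congrArg abs h2
    rw [abs_mul, abs_mul, abs_mul, abs_of_pos hB, abs_of_nonneg hy,
      abs_of_nonneg (by positivity : 0 ≤ (P * θ) ^ 2 + P * θ * Q + Q ^ 2), abs_sub_comm Y X] at h4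
    exact h4
  rw [← h3]
  have h5 : 0 ≤ |P * θ - Q| := abs_nonneg _
  have h6 : 0 ≤ (P * θ) ^ 2 + P * θ * Q := by positivity
  nlinarith [mul_nonneg (mul_nonneg h5 h6) hB.le]

theorem dzero {x y X Y P Q B0 h θ C : ℝ} {r : ℕ} {a b Pi Qi : ℤ}
    (hPi : P = Pi) (hQi : Q = Qi) (hP0 : 0 < P) (hQ0 : 0 < Q) (hB : 1 ≤ B0) (hx : 1 ≤ x)
    (hh : 0 < h) (hyx : y = x - h) (hy : 0 < y) (hX : 1 ≤ X) (hY : 0 < Y) (hYX : Y ≤ 2 * X)
    (hP : P ^ 3 * B0 = x * Y) (hQ : Q ^ 3 * B0 = y * X)
    (hθ0 : 0 ≤ θ) (hθ : θ ^ 3 = y / x) (hh1 : h ^ 100 ≤ x) (hh2 : |X - Y| ^ 100 ≤ 2 * X)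
    (hC : 1 ≤ C) (hb : |(b : ℝ)| ≤ C ^ (r + 1) * x ^ r)
    (ha : |(a : ℝ) - θ * b| ≤ C ^ (r + 1) * h ^ (2 * r + 1) / x ^ (r + 1))
    (hL : 100 * (log C + 2) ≤ log x)
    (hi : ((r : ℝ) + 1 / 3) * log x + (r + 1) * log x / 100 ≤ (2 / 3 - 1 / 100) * log X)
    (hii : log X / 3 ≤ ((r : ℝ) + 2 / 3) * log x - (3 * r + 3) * log x / 100) :
    Pi * a = Qi * b := by
  have hx0 : 0 < x := by linarith
  have hX0 : 0 < X := by linarith
  have hB0 : 0 < B0 := by linarith
  have hC0 : 0 < C := by linarith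
  have hlogC : 0 ≤ log C := log_nonneg hC
  have hlogx : 0 ≤ log x := log_nonneg hx
  have hlog2 : log 2 < 0.7 := by
    have := Real.log_two_lt_d9
    linarith
  have hlog2' : 0 < log 2 := Real.log_pos (by norm_num)
  have hlh : log h ≤ log x / 100 := by
    have h1 := Real.log_le_log (by positivity) hh1
    rw [Real.log_pow] at h1
    push_cast at h1
    linarith
  -- the bound for `P`
  have hlP : log P ≤ (log x + log X + log 2) / 3 := by
    have h1 : P ^ 3 ≤ 2 * x * X := by
      calc P ^ 3 = P ^ 3 * 1 := by ring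
        _ ≤ P ^ 3 * B0 := by gcongr
        _ = x * Y := hP
        _ ≤ x * (2 * X) := by gcongr
        _ = 2 * x * X := by ring
    have h2 := Real.log_le_log (by positivity) h1
    rw [Real.log_pow, Real.log_mul (by positivity) (by positivity),
      Real.log_mul (by positivity) (by positivity)] at h2
    push_cast at h2
    linarith
  -- first term
  have hT1 : P * |(a : ℝ) - θ * b| ≤ 1 / 4 := by
    have h1 : P * |(a : ℝ) - θ * b| ≤ P * (C ^ (r + 1) * h ^ (2 * r + 1) / x ^ (r + 1)) := by
      gcongr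
    refine h1.trans ?_
    have hpos : 0 < P * (C ^ (r + 1) * h ^ (2 * r + 1) / x ^ (r + 1)) := by positivity
    rw [← Real.exp_log hpos]
    have h2 : log (P * (C ^ (r + 1) * h ^ (2 * r + 1) / x ^ (r + 1))) =
        log P + ((r + 1) * log C + (2 * r + 1) * log h - (r + 1) * log x) := by
      rw [Real.log_mul (by positivity) (by positivity), Real.log_div (by positivity) (by positivity),
        Real.log_mul (by positivity) (by positivity), Real.log_pow, Real.log_pow, Real.log_pow]
      push_cast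
      ring
    have hr0 : (0 : ℝ) ≤ r := Nat.cast_nonneg r
    have h3 : log (P * (C ^ (r + 1) * h ^ (2 * r + 1) / x ^ (r + 1))) ≤ -2 := by
      rw [h2]
      have h4 : (2 * (r : ℝ) + 1) * log h ≤ (2 * r + 1) * (log x / 100) := by gcongr
      have h5 : ((r : ℝ) + 2) * (log C + 2) ≤ (r + 2) * (log x / 100) := by
        have : log C + 2 ≤ log x / 100 := by linarith
        gcongr
      nlinarith
    calc Real.exp (log (P * (C ^ (r + 1) * h ^ (2 * r + 1) / x ^ (r + 1)))) ≤ Real.exp (-2) :=
          Real.exp_le_exp.2 h3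
      _ ≤ 1 / 4 := by
          rw [Real.exp_neg]
          have h6 : (4 : ℝ) ≤ Real.exp 2 := by
            have h7 : (2 : ℝ) ≤ Real.exp 1 := by
              have := Real.add_one_le_exp (1 : ℝ)
              linarith
            have h8 : Real.exp 2 = Real.exp 1 * Real.exp 1 := by
              rw [← Real.exp_add]; norm_num
            rw [h8]
            nlinarith
          rw [inv_le_comm₀ (by positivity) (by norm_num)]
          linarith
  -- second term
  have hT2 : |(b : ℝ)| * |P * θ - Q| ≤ 1 / 4 := by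
    have hd := diff_bound hP0.le hQ0 hB0 hx0 hy.le hθ0 hθ hP hQ
    rcases eq_or_lt_of_le (abs_nonneg (P * θ - Q)) with h0 | h0
    · rw [← h0]
      norm_num
    have hXY : 0 < |X - Y| := by
      rcases eq_or_lt_of_le (abs_nonneg (X - Y)) with h1 | h1
      · rw [← h1, mul_zero] at hd
        have : 0 < |P * θ - Q| * (B0 * Q ^ 2) := by positivity
        linarith
      · exact h1
    have hlh2 : log |X - Y| ≤ (log X + log 2) / 100 := by
      have h1 := Real.log_le_log (by positivity) hh2
      rw [Real.log_pow, Real.log_mul (by norm_num) (by positivity)] at h1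
      push_cast at h1
      linarith
    have hly : log y ≤ log x := Real.log_le_log hy (by linarith)
    have hld : log |P * θ - Q| ≤ log x / 3 + (log X + log 2) / 100 - 2 / 3 * log X := by
      have h1 := Real.log_le_log (by positivity) hd
      rw [Real.log_mul (by positivity) (by positivity), Real.log_mul (by positivity) (by positivity),
        Real.log_mul (by positivity) (by positivity), Real.log_pow] at h1
      have h2 := congrArg Real.log hQ
      rw [Real.log_mul (by positivity) (by positivity), Real.log_mul (by positivity) (by positivity),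
        Real.log_pow] at h2
      have h3 : 0 ≤ log B0 := log_nonneg hB
      push_cast at h1 h2
      linarith
    have h1 : |(b : ℝ)| * |P * θ - Q| ≤ (C ^ (r + 1) * x ^ r) * |P * θ - Q| := by gcongr
    refine h1.trans ?_
    have hpos : 0 < (C ^ (r + 1) * x ^ r) * |P * θ - Q| := by positivity
    rw [← Real.exp_log hpos]
    have h2 : log ((C ^ (r + 1) * x ^ r) * |P * θ - Q|) =
        (r + 1) * log C + r * log x + log |P * θ - Q| := by
      rw [Real.log_mul (by positivity) (by positivity), Real.log_mul (by positivity) (by positivity),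
        Real.log_pow, Real.log_pow]
      push_cast
      ring
    have hr0 : (0 : ℝ) ≤ r := Nat.cast_nonneg r
    have h3 : log ((C ^ (r + 1) * x ^ r) * |P * θ - Q|) ≤ -1.5 := by
      rw [h2]
      have h5 : ((r : ℝ) + 1) * (log C + 2) ≤ (r + 1) * (log x / 100) := by
        have : log C + 2 ≤ log x / 100 := by linarith
        gcongr
      nlinarith
    calc Real.exp (log ((C ^ (r + 1) * x ^ r) * |P * θ - Q|)) ≤ Real.exp (-1.5) :=
          Real.exp_le_exp.2 h3
      _ ≤ 1 / 4 := by
          rw [Real.exp_neg]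
          have h6 : (4 : ℝ) ≤ Real.exp 1.5 := by
            have h7 : (1.64 : ℝ) ≤ Real.exp 0.5 := by
              have h9 := Real.quadratic_le_exp_of_nonneg (show (0 : ℝ) ≤ 0.5 by norm_num)
              have h10 := Real.add_one_le_exp (0.25 : ℝ)
              have h11 : Real.exp 0.5 = Real.exp 0.25 * Real.exp 0.25 := by
                rw [← Real.exp_add]; norm_num
              have h12 := Real.quadratic_le_exp_of_nonneg (show (0 : ℝ) ≤ 0.25 by norm_num)
              rw [h11]
              nlinarith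
            have h8 : Real.exp 1.5 = Real.exp 0.5 * Real.exp 0.5 * Real.exp 0.5 := by
              rw [← Real.exp_add, ← Real.exp_add]; norm_num
            rw [h8]
            have h13 : (2.6896 : ℝ) ≤ Real.exp 0.5 * Real.exp 0.5 := by nlinarith
            nlinarith
          rw [inv_le_comm₀ (by positivity) (by norm_num)]
          linarith
  -- conclusion
  have hkey : |((Pi * a - Qi * b : ℤ) : ℝ)| ≤ 1 / 2 := by
    have h1 : ((Pi * a - Qi * b : ℤ) : ℝ) = P * ((a : ℝ) - θ * b) + b * (P * θ - Q) := by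
      push_cast
      rw [← hPi, ← hQi]
      ring
    rw [h1]
    calc |P * ((a : ℝ) - θ * b) + b * (P * θ - Q)| ≤ |P * ((a : ℝ) - θ * b)| + |b * (P * θ - Q)| :=
          abs_add_le _ _
      _ = P * |(a : ℝ) - θ * b| + |(b : ℝ)| * |P * θ - Q| := by
          rw [abs_mul, abs_mul, abs_of_pos hP0]
      _ ≤ 1 / 2 := by linarith
  have h2 : Pi * a - Qi * b = 0 := by
    by_contra hne
    have h3 : (1 : ℤ) ≤ |Pi * a - Qi * b| := Int.one_le_abs hne
    have h4 : (1 : ℝ) ≤ |((Pi * a - Qi * b : ℤ) : ℝ)| := by exact_mod_cast h3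
    linarith
  linarith

end Pool.Agent.CubeGap
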