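import Mathlib

set_option autoImplicit false

/-!
# The range `X ≤ x ^ 2.07`

Gap principle for `X ≤ u ^ 191`, `x = u ^ 100`, and the critical window `u ^ 191 ≤ X ≤ u ^ 207`, closed
by the identity `x (x + 2 y) ^ 3 - y (2 x + y) ^ 3 = (x - y) ^ 3 (x + y)`.
-/

namespace Pool.Agent.CubeGap

/-- `|P - Q| ^ 3 * B0 * (y X) ^ 2 ≤ (h X + x |X - Y|) ^ 3`. -/
theorem d0_bound {x y X Y P Q B0 h : ℝ} (hP0 : 0 < P) (hQ0 : 0 < Q) (hB : 0 < B0) (hx : 0 < x)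
    (hh : 0 < h) (hyx : y = x - h) (hX : 0 < X)
    (hP : P ^ 3 * B0 = x * Y) (hQ : Q ^ 3 * B0 = y * X) :
    |P - Q| ^ 3 * B0 * (y * X) ^ 2 ≤ (h * X + x * |X - Y|) ^ 3 := by
  have h1 : (P - Q) * (P ^ 2 + P * Q + Q ^ 2) * B0 = h * X - x * (X - Y) := by
    rw [hyx] at hQ
    linear_combination hP - hQ
  have h2 : |P - Q| * (P ^ 2 + P * Q + Q ^ 2) * B0 = |h * X - x * (X - Y)| := by
    have h4 := congrArg abs h1
    rw [abs_mul, abs_mul, abs_of_pos hB,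
      abs_of_pos (by positivity : 0 < P ^ 2 + P * Q + Q ^ 2)] at h4
    exact h4
  have h3 : |P - Q| * Q ^ 2 * B0 ≤ h * X + x * |X - Y| := by
    have h5 : |P - Q| * Q ^ 2 * B0 ≤ |P - Q| * (P ^ 2 + P * Q + Q ^ 2) * B0 := by
      have : Q ^ 2 ≤ P ^ 2 + P * Q + Q ^ 2 := by
        have : 0 < P ^ 2 + P * Q := by positivity
        linarith
      gcongr
    refine h5.trans ?_
    rw [h2]
    calc |h * X - x * (X - Y)| ≤ |h * X| + |x * (X - Y)| := abs_sub _ _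
      _ = h * X + x * |X - Y| := by rw [abs_of_pos (by positivity), abs_mul, abs_of_pos hx]
  calc |P - Q| ^ 3 * B0 * (y * X) ^ 2 = (|P - Q| * Q ^ 2 * B0) ^ 3 := by
        rw [← hQ]; ring
    _ ≤ (h * X + x * |X - Y|) ^ 3 := by
        have : 0 ≤ |P - Q| * Q ^ 2 * B0 := by positivity
        gcongr

theorem gap0 {x y X Y P Q B0 h u : ℝ} {Pi Qi : ℤ} (hPi : P = Pi) (hQi : Q = Qi)
    (hP0 : 0 < P) (hQ0 : 0 < Q) (hB : 1 ≤ B0) (hu : 100 ≤ u) (hxu : x = u ^ 100)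
    (hh : 0 < h) (hyx : y = x - h) (hhu : h ≤ u) (hX : 0 < X)
    (hP : P ^ 3 * B0 = x * Y) (hQ : Q ^ 3 * B0 = y * X) (hxX : x ≤ 2 * X)
    (hXu : X ≤ u ^ 191) (hh2 : |X - Y| ≤ u ^ 2) : Pi = Qi := by
  have hu0 : 0 < u := by linarith
  have hx : 0 < x := by rw [hxu]; positivity
  have hB0 : 0 < B0 := by linarith
  have hhx : h ≤ x / 2 := by
    have h1 : 2 * u ≤ x := by
      rw [hxu]
      calc 2 * u ≤ u * u := by nlinarith
        _ = u ^ 2 := by ring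
        _ ≤ u ^ 100 := pow_le_pow_right₀ (by linarith) (by norm_num)
    linarith
  have hy : x / 2 ≤ y := by linarith
  have hmain := d0_bound hP0 hQ0 hB0 hx hh hyx hX hP hQ
  have h1 : h * X + x * |X - Y| ≤ 3 * u ^ 2 * X := by
    have a1 : h * X ≤ u ^ 2 * X := by
      have : h ≤ u ^ 2 := by nlinarith
      gcongr
    have a2 : x * |X - Y| ≤ 2 * X * u ^ 2 := by gcongr
    nlinarith
  have h2 : |P - Q| ^ 3 * (x / 2 * X) ^ 2 ≤ (3 * u ^ 2 * X) ^ 3 := by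
    calc |P - Q| ^ 3 * (x / 2 * X) ^ 2 = |P - Q| ^ 3 * 1 * (x / 2 * X) ^ 2 := by ring
      _ ≤ |P - Q| ^ 3 * B0 * (y * X) ^ 2 := by gcongr
      _ ≤ (h * X + x * |X - Y|) ^ 3 := hmain
      _ ≤ (3 * u ^ 2 * X) ^ 3 := by gcongr
  have h3 : |P - Q| ^ 3 * x ^ 2 ≤ 108 * u ^ 6 * X := by
    have h4 : |P - Q| ^ 3 * x ^ 2 * (X ^ 2) ≤ 108 * u ^ 6 * X * (X ^ 2) := by nlinarith
    exact le_of_mul_le_mul_right h4 (by positivity)
  have h5 : |P - Q| ^ 3 < 1 := by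
    have h6 : |P - Q| ^ 3 * u ^ 200 ≤ 108 * u ^ 197 := by
      calc |P - Q| ^ 3 * u ^ 200 = |P - Q| ^ 3 * x ^ 2 := by rw [hxu]; ring
        _ ≤ 108 * u ^ 6 * X := h3
        _ ≤ 108 * u ^ 6 * u ^ 191 := by gcongr
        _ = 108 * u ^ 197 := by ring
    by_contra hcon
    push Not at hcon
    have h7 : u ^ 200 ≤ 108 * u ^ 197 := by
      calc u ^ 200 = 1 * u ^ 200 := by ring
        _ ≤ |P - Q| ^ 3 * u ^ 200 := by gcongr
        _ ≤ _ := h6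
    have h8 : u ^ 3 ≤ 108 := by
      have h9 : u ^ 3 * u ^ 197 ≤ 108 * u ^ 197 := by
        rw [← pow_add]
        exact h7
      exact le_of_mul_le_mul_right h9 (by positivity)
    have h10 : (100 : ℝ) ^ 3 ≤ u ^ 3 := by gcongr
    norm_num at h10
    linarith
  have h11 : |P - Q| < 1 := by
    by_contra hcon
    push Not at hcon
    have : (1 : ℝ) ≤ |P - Q| ^ 3 := one_le_pow₀ hcon
    linarith
  rw [hPi, hQi] at h11
  have h12 : |Pi - Qi| < 1 := by exact_mod_cast h11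
  have h13 := Int.abs_lt_one_iff.1 h12
  omega

/-- The algebraic identity behind the window. -/
theorem window_identity {x y X Y P Q B0 h h2 D0 D1 : ℤ} (hh : h ≠ 0) (hyx : y = x - h)
    (hh2 : h2 = X - Y) (hP : P ^ 3 * B0 = x * Y) (hQ : Q ^ 3 * B0 = y * X) (hD0 : D0 = P - Q)
    (hD1 : D1 = (x + 2 * y) * P - (2 * x + y) * Q) :
    (9 * B0 * D0 ^ 2 * D1 + h ^ 2 * h2) * x ^ 2 -
      (B0 * (2 * D0 ^ 3 * h ^ 2 + 9 * D0 ^ 2 * D1 * h + 6 * D0 * D1 ^ 2) + h ^ 3 * h2) * x +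
      B0 * (D0 * h + D1) ^ 3 = 0 := by
  apply mul_left_cancel₀ hh
  rw [mul_zero]
  have e1 : h * P = (2 * x + y) * D0 - D1 := by
    rw [hD0, hD1, hyx]; ring
  have e2 : h * Q = (x + 2 * y) * D0 - D1 := by
    rw [hD0, hD1, hyx]; ring
  have e3 : B0 * (x * (h * Q) ^ 3 - y * (h * P) ^ 3) = x * y * h2 * h ^ 3 := by
    rw [hh2]
    linear_combination (x * h ^ 3) * hQ - (y * h ^ 3) * hP
  rw [e1, e2] at e3
  have hx : x = y + h := by rw [hyx]; ring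
  rw [hx] at e3 ⊢
  linear_combination (-1 : ℤ) * e3

theorem window {x y X Y P Q B0 h : ℤ} {u : ℝ} (hP0 : 0 < P) (hQ0 : 0 < Q) (hB : 1 ≤ B0)
    (hu : 100 ≤ u) (hxu : (x : ℝ) = u ^ 100) (hh : 0 < h) (hyx : y = x - h) (hhu : (h : ℝ) ≤ u)
    (hX : 0 < X) (hY : 0 < Y) (hYX : Y ≤ 2 * X) (hP : P ^ 3 * B0 = x * Y) (hQ : Q ^ 3 * B0 = y * X)
    (hXu1 : u ^ 191 ≤ (X : ℝ)) (hXu2 : (X : ℝ) ≤ u ^ 207) (hh2 : |(X : ℝ) - Y| ≤ u ^ 3) :
    P = Q := by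
  by_contra hne
  have hu0 : 0 < u := by linarith
  have hu1 : 1 ≤ u := by linarith
  have hx : (0 : ℝ) < x := by rw [hxu]; positivity
  have hxi : 0 < x := by exact_mod_cast hx
  have hXr : (0 : ℝ) < X := by exact_mod_cast hX
  have hYr : (0 : ℝ) < Y := by exact_mod_cast hY
  have hB1 : (1 : ℝ) ≤ B0 := by exact_mod_cast hB
  have hBr : (0 : ℝ) < B0 := by linarith
  have hPr : (0 : ℝ) < P := by exact_mod_cast hP0
  have hQr : (0 : ℝ) < Q := by exact_mod_cast hQ0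
  have hhr : (0 : ℝ) < h := by exact_mod_cast hh
  have hyxr : (y : ℝ) = x - h := by rw [hyx]; push_cast; ring
  have hPe : (P : ℝ) ^ 3 * B0 = x * Y := by exact_mod_cast hP
  have hQe : (Q : ℝ) ^ 3 * B0 = y * X := by exact_mod_cast hQ
  have hYXr : (Y : ℝ) ≤ 2 * X := by exact_mod_cast hYX
  have hhx : (h : ℝ) ≤ x / 2 := by
    have h1 : 2 * u ≤ x := by
      rw [hxu]
      calc 2 * u ≤ u * u := by nlinarith
        _ = u ^ 2 := by ring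
        _ ≤ u ^ 100 := pow_le_pow_right₀ (by linarith) (by norm_num)
    linarith
  have hy : (x : ℝ) / 2 ≤ y := by linarith
  have hy0 : (0 : ℝ) < y := by linarith
  -- first determinant
  have hmain := d0_bound hPr hQr hBr hx hhr hyxr hXr hPe hQe
  have h1 : (h : ℝ) * X + x * |(X : ℝ) - Y| ≤ 2 * u * X := by
    have a1 : (h : ℝ) * X ≤ u * X := by gcongr
    have a2 : (x : ℝ) * |(X : ℝ) - Y| ≤ u * X := by
      calc (x : ℝ) * |(X : ℝ) - Y| ≤ u ^ 100 * u ^ 3 := by rw [hxu]; gcongr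
        _ = u ^ 103 := by ring
        _ ≤ u ^ 192 := pow_le_pow_right₀ hu1 (by norm_num)
        _ = u * u ^ 191 := by ring
        _ ≤ u * X := by gcongr
    linarith
  have h2 : |(P : ℝ) - Q| ^ 3 * B0 ≤ u ^ 11 := by
    have h3 : |(P : ℝ) - Q| ^ 3 * B0 * (x / 2 * X) ^ 2 ≤ (2 * u * X) ^ 3 := by
      calc |(P : ℝ) - Q| ^ 3 * B0 * (x / 2 * X) ^ 2 ≤ |(P : ℝ) - Q| ^ 3 * B0 * (y * X) ^ 2 := by
            gcongr
        _ ≤ _ := hmain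
        _ ≤ (2 * u * X) ^ 3 := by gcongr
    have h4 : |(P : ℝ) - Q| ^ 3 * B0 * x ^ 2 ≤ 32 * u ^ 3 * X := by
      have h5 : |(P : ℝ) - Q| ^ 3 * B0 * x ^ 2 * (X : ℝ) ^ 2 ≤ 32 * u ^ 3 * X * (X : ℝ) ^ 2 := by
        nlinarith
      exact le_of_mul_le_mul_right h5 (by positivity)
    have h6 : |(P : ℝ) - Q| ^ 3 * B0 * u ^ 200 ≤ u ^ 11 * u ^ 200 := by
      calc |(P : ℝ) - Q| ^ 3 * B0 * u ^ 200 = |(P : ℝ) - Q| ^ 3 * B0 * x ^ 2 := by rw [hxu]; ring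
        _ ≤ 32 * u ^ 3 * X := h4
        _ ≤ u * u ^ 3 * u ^ 207 := by gcongr; linarith
        _ = u ^ 11 * u ^ 200 := by ring
    exact le_of_mul_le_mul_right h6 (by positivity)
  have hD0i : (1 : ℤ) ≤ |P - Q| := Int.one_le_abs (sub_ne_zero.2 hne)
  have hD0r : (1 : ℝ) ≤ |(P : ℝ) - Q| := by exact_mod_cast hD0i
  have hBu : (B0 : ℝ) ≤ u ^ 11 := by
    calc (B0 : ℝ) = 1 ^ 3 * B0 := by ring
      _ ≤ |(P : ℝ) - Q| ^ 3 * B0 := by gcongr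
      _ ≤ _ := h2
  have hD0u : |(P : ℝ) - Q| ≤ u ^ 4 := by
    have h3 : |(P : ℝ) - Q| ^ 3 ≤ (u ^ 4) ^ 3 := by
      calc |(P : ℝ) - Q| ^ 3 = |(P : ℝ) - Q| ^ 3 * 1 := by ring
        _ ≤ |(P : ℝ) - Q| ^ 3 * B0 := by gcongr
        _ ≤ u ^ 11 := h2
        _ ≤ u ^ 12 := pow_le_pow_right₀ hu1 (by norm_num)
        _ = (u ^ 4) ^ 3 := by ring
    exact le_of_pow_le_pow_left₀ (by norm_num) (by positivity) h3
  -- second determinant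
  obtain ⟨D1, hD1⟩ : ∃ D1 : ℤ, D1 = (x + 2 * y) * P - (2 * x + y) * Q := ⟨_, rfl⟩
  have hD1r : (D1 : ℝ) = (x + 2 * y) * P - (2 * x + y) * Q := by rw [hD1]; push_cast; ring
  have hD1u : |(D1 : ℝ)| ≤ u ^ 10 := by
    have a1 : ((((x : ℝ) + 2 * y) * P) ^ 3 - ((2 * (x : ℝ) + y) * Q) ^ 3) * B0 =
        Y * (h : ℝ) ^ 3 * (x + y) - y * (2 * x + y) ^ 3 * (X - Y) := by
      have hxe : (h : ℝ) = x - y := by rw [hyxr]; ring
      rw [hxe]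
      linear_combination ((x : ℝ) + 2 * y) ^ 3 * hPe - (2 * (x : ℝ) + y) ^ 3 * hQe
    have a2 : (D1 : ℝ) * ((((x : ℝ) + 2 * y) * P) ^ 2 + ((x : ℝ) + 2 * y) * P * ((2 * (x : ℝ) + y) * Q)
        + ((2 * (x : ℝ) + y) * Q) ^ 2) * B0 =
        Y * (h : ℝ) ^ 3 * (x + y) - y * (2 * x + y) ^ 3 * (X - Y) := by
      rw [← a1, hD1r]; ring
    have a3 : |(D1 : ℝ)| * ((2 * (x : ℝ) + y) * Q) ^ 2 * B0 ≤
        Y * (h : ℝ) ^ 3 * (x + y) + y * (2 * x + y) ^ 3 * |(X : ℝ) - Y| := by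
      have b1 : |(D1 : ℝ)| * ((((x : ℝ) + 2 * y) * P) ^ 2 +
          ((x : ℝ) + 2 * y) * P * ((2 * (x : ℝ) + y) * Q) + ((2 * (x : ℝ) + y) * Q) ^ 2) * B0 =
          |Y * (h : ℝ) ^ 3 * (x + y) - y * (2 * x + y) ^ 3 * (X - Y)| := by
        have b2 := congrArg abs a2
        rw [abs_mul, abs_mul, abs_of_pos hBr, abs_of_pos (by positivity :
          (0 : ℝ) < (((x : ℝ) + 2 * y) * P) ^ 2 + ((x : ℝ) + 2 * y) * P * ((2 * (x : ℝ) + y) * Q)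
            + ((2 * (x : ℝ) + y) * Q) ^ 2)] at b2
        exact b2
      have b3 : |(D1 : ℝ)| * ((2 * (x : ℝ) + y) * Q) ^ 2 * B0 ≤
          |(D1 : ℝ)| * ((((x : ℝ) + 2 * y) * P) ^ 2 +
          ((x : ℝ) + 2 * y) * P * ((2 * (x : ℝ) + y) * Q) + ((2 * (x : ℝ) + y) * Q) ^ 2) * B0 := by
        have : (0 : ℝ) ≤ (((x : ℝ) + 2 * y) * P) ^ 2 +
          ((x : ℝ) + 2 * y) * P * ((2 * (x : ℝ) + y) * Q) := by positivity
        gcongr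
        linarith
      refine b3.trans ?_
      rw [b1]
      calc |Y * (h : ℝ) ^ 3 * (x + y) - y * (2 * x + y) ^ 3 * (X - Y)|
          ≤ |Y * (h : ℝ) ^ 3 * (x + y)| + |(y : ℝ) * (2 * x + y) ^ 3 * (X - Y)| := abs_sub _ _
        _ = _ := by
            rw [abs_of_pos (by positivity), abs_mul, abs_of_pos (by positivity :
              (0 : ℝ) < (y : ℝ) * (2 * x + y) ^ 3)]
    have hyx' : (y : ℝ) ≤ x := by linarith
    have a4 : Y * (h : ℝ) ^ 3 * (x + y) + y * (2 * x + y) ^ 3 * |(X : ℝ) - Y| ≤ 28 * x ^ 4 * u ^ 3 := by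
      have b1 : Y * (h : ℝ) ^ 3 * (x + y) ≤ x ^ 4 * u ^ 3 := by
        calc Y * (h : ℝ) ^ 3 * (x + y) ≤ (2 * X) * u ^ 3 * (x + x) := by gcongr
          _ = 4 * X * (x * u ^ 3) := by ring
          _ ≤ u * u ^ 207 * (x * u ^ 3) := by gcongr; linarith
          _ = u ^ 208 * (x * u ^ 3) := by ring
          _ ≤ u ^ 300 * (x * u ^ 3) := by
              gcongr ?_ * _
              exact pow_le_pow_right₀ hu1 (by norm_num)
          _ = x ^ 4 * u ^ 3 := by rw [hxu]; ring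
      have b2 : y * (2 * x + y) ^ 3 * |(X : ℝ) - Y| ≤ 27 * x ^ 4 * u ^ 3 := by
        calc y * (2 * x + y) ^ 3 * |(X : ℝ) - Y| ≤ x * (2 * x + x) ^ 3 * u ^ 3 := by gcongr
          _ = 27 * x ^ 4 * u ^ 3 := by ring
      linarith
    have a5 : |(D1 : ℝ)| ^ 3 * ((2 * x + y) ^ 6 * (y * X) ^ 2) ≤ (28 * x ^ 4 * u ^ 3) ^ 3 := by
      calc |(D1 : ℝ)| ^ 3 * ((2 * x + y) ^ 6 * (y * X) ^ 2)
          = |(D1 : ℝ)| ^ 3 * ((2 * x + y) ^ 6 * (y * X) ^ 2) * 1 := by ring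
        _ ≤ |(D1 : ℝ)| ^ 3 * ((2 * x + y) ^ 6 * (y * X) ^ 2) * B0 := by gcongr
        _ = (|(D1 : ℝ)| * ((2 * (x : ℝ) + y) * Q) ^ 2 * B0) ^ 3 := by rw [← hQe]; ring
        _ ≤ (28 * x ^ 4 * u ^ 3) ^ 3 := by
            have : 0 ≤ |(D1 : ℝ)| * ((2 * (x : ℝ) + y) * Q) ^ 2 * B0 := by positivity
            exact pow_le_pow_left₀ this (a3.trans a4) 3
    have a6 : |(D1 : ℝ)| ^ 3 * (16 * (x ^ 8 * X ^ 2)) ≤ 21952 * x ^ 12 * u ^ 9 := by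
      calc |(D1 : ℝ)| ^ 3 * (16 * (x ^ 8 * X ^ 2))
          = |(D1 : ℝ)| ^ 3 * ((2 * x + 0) ^ 6 * (x / 2 * X) ^ 2) := by ring
        _ ≤ |(D1 : ℝ)| ^ 3 * ((2 * x + y) ^ 6 * (y * X) ^ 2) := by gcongr
        _ ≤ (28 * x ^ 4 * u ^ 3) ^ 3 := a5
        _ = 21952 * x ^ 12 * u ^ 9 := by ring
    have a7 : |(D1 : ℝ)| ^ 3 * u ^ 382 ≤ 1372 * u ^ 409 := by
      have b1 : |(D1 : ℝ)| ^ 3 * (X : ℝ) ^ 2 ≤ 1372 * x ^ 4 * u ^ 9 := by
        have b2 : |(D1 : ℝ)| ^ 3 * (X : ℝ) ^ 2 * (16 * x ^ 8) ≤ 1372 * x ^ 4 * u ^ 9 * (16 * x ^ 8) := by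
          nlinarith
        exact le_of_mul_le_mul_right b2 (by positivity)
      calc |(D1 : ℝ)| ^ 3 * u ^ 382 = |(D1 : ℝ)| ^ 3 * (u ^ 191) ^ 2 := by ring
        _ ≤ |(D1 : ℝ)| ^ 3 * (X : ℝ) ^ 2 := by gcongr
        _ ≤ 1372 * x ^ 4 * u ^ 9 := b1
        _ = 1372 * u ^ 409 := by rw [hxu]; ring
    have a8 : |(D1 : ℝ)| ^ 3 ≤ (u ^ 10) ^ 3 := by
      have b1 : |(D1 : ℝ)| ^ 3 * u ^ 382 ≤ (u ^ 10) ^ 3 * u ^ 382 := by
        refine a7.trans ?_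
        calc 1372 * u ^ 409 ≤ u ^ 3 * u ^ 409 := by
              gcongr
              calc (1372 : ℝ) ≤ 100 ^ 3 := by norm_num
                _ ≤ u ^ 3 := by gcongr
          _ = (u ^ 10) ^ 3 * u ^ 382 := by ring
      exact le_of_mul_le_mul_right b1 (by positivity)
    exact le_of_pow_le_pow_left₀ (by norm_num) (by positivity) a8
  -- the quadratic
  have hid := window_identity hh.ne' hyx (rfl : X - Y = X - Y) hP hQ (rfl : P - Q = P - Q) hD1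
  obtain ⟨D0, hD0⟩ : ∃ D0 : ℤ, D0 = P - Q := ⟨_, rfl⟩
  obtain ⟨g, hg⟩ : ∃ g : ℤ, g = X - Y := ⟨_, rfl⟩
  rw [← hD0, ← hg] at hid
  have hD0u' : |(D0 : ℝ)| ≤ u ^ 4 := by rw [hD0]; push_cast; exact hD0u
  have hgu : |(g : ℝ)| ≤ u ^ 3 := by rw [hg]; push_cast; exact hh2
  have hhu' : |(h : ℝ)| ≤ u := by rw [abs_of_pos hhr]; exact hhu
  have hBu' : |(B0 : ℝ)| ≤ u ^ 11 := by rw [abs_of_pos hBr]; exact hBu
  obtain ⟨c2, hc2⟩ : ∃ c2 : ℤ, c2 = 9 * B0 * D0 ^ 2 * D1 + h ^ 2 * g := ⟨_, rfl⟩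
  obtain ⟨c1, hc1⟩ : ∃ c1 : ℤ, c1 = B0 * (2 * D0 ^ 3 * h ^ 2 + 9 * D0 ^ 2 * D1 * h + 6 * D0 * D1 ^ 2) +
    h ^ 3 * g := ⟨_, rfl⟩
  obtain ⟨c0, hc0⟩ : ∃ c0 : ℤ, c0 = B0 * (D0 * h + D1) ^ 3 := ⟨_, rfl⟩
  rw [← hc2, ← hc1, ← hc0] at hid
  have hc1u : |(c1 : ℝ)| ≤ u ^ 36 := by
    rw [hc1]
    push_cast
    calc |(B0 : ℝ) * (2 * D0 ^ 3 * h ^ 2 + 9 * D0 ^ 2 * D1 * h + 6 * D0 * D1 ^ 2) + h ^ 3 * g|
        ≤ |(B0 : ℝ) * (2 * D0 ^ 3 * h ^ 2 + 9 * D0 ^ 2 * D1 * h + 6 * D0 * D1 ^ 2)| +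
          |(h : ℝ) ^ 3 * g| := abs_add_le _ _
      _ ≤ |(B0 : ℝ)| * (2 * |(D0 : ℝ)| ^ 3 * |(h : ℝ)| ^ 2 + 9 * |(D0 : ℝ)| ^ 2 * |(D1 : ℝ)| * |(h : ℝ)| +
          6 * |(D0 : ℝ)| * |(D1 : ℝ)| ^ 2) + |(h : ℝ)| ^ 3 * |(g : ℝ)| := by
          rw [abs_mul, abs_mul, abs_pow]
          gcongr
          refine (abs_add_le _ _).trans ?_
          refine (add_le_add (abs_add_le _ _) le_rfl).trans ?_
          simp only [abs_mul, abs_pow, abs_of_pos (show (0 : ℝ) < 2 by norm_num),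
            abs_of_pos (show (0 : ℝ) < 9 by norm_num), abs_of_pos (show (0 : ℝ) < 6 by norm_num)]
          exact le_rfl
      _ ≤ u ^ 11 * (2 * (u ^ 4) ^ 3 * u ^ 2 + 9 * (u ^ 4) ^ 2 * u ^ 10 * u +
          6 * u ^ 4 * (u ^ 10) ^ 2) + u ^ 3 * u ^ 3 := by gcongr
      _ = 2 * u ^ 25 + 9 * u ^ 30 + 6 * u ^ 35 + u ^ 6 := by ring
      _ ≤ 2 * u ^ 35 + 9 * u ^ 35 + 6 * u ^ 35 + u ^ 35 := by
          have e1 : u ^ 25 ≤ u ^ 35 := pow_le_pow_right₀ hu1 (by norm_num)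
          have e2 : u ^ 30 ≤ u ^ 35 := pow_le_pow_right₀ hu1 (by norm_num)
          have e3 : u ^ 6 ≤ u ^ 35 := pow_le_pow_right₀ hu1 (by norm_num)
          linarith
      _ = 18 * u ^ 35 := by ring
      _ ≤ u * u ^ 35 := by gcongr; linarith
      _ = u ^ 36 := by ring
  have hc0u : |(c0 : ℝ)| ≤ u ^ 42 := by
    rw [hc0]
    push_cast
    rw [abs_mul, abs_pow]
    calc |(B0 : ℝ)| * |(D0 : ℝ) * h + D1| ^ 3 ≤
          |(B0 : ℝ)| * (|(D0 : ℝ)| * |(h : ℝ)| + |(D1 : ℝ)|) ^ 3 := by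
          gcongr
          refine (abs_add_le _ _).trans ?_
          rw [abs_mul]
      _ ≤ u ^ 11 * (u ^ 4 * u + u ^ 10) ^ 3 := by gcongr
      _ ≤ u ^ 11 * (u ^ 10 + u ^ 10) ^ 3 := by
          have e1 : u ^ 4 * u ≤ u ^ 10 := by
            rw [← pow_succ]
            exact pow_le_pow_right₀ hu1 (by norm_num)
          gcongr
      _ = 8 * u ^ 41 := by ring
      _ ≤ u * u ^ 41 := by gcongr; linarith
      _ = u ^ 42 := by ring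
  have hidr : (c2 : ℝ) * x ^ 2 - c1 * x + c0 = 0 := by exact_mod_cast hid
  -- c2 = 0
  have hbig : u ^ 36 * x + u ^ 42 < x ^ 2 := by
    rw [hxu]
    have e1 : u ^ 36 * u ^ 100 + u ^ 42 ≤ 2 * u ^ 136 := by
      have e2 : u ^ 42 ≤ u ^ 136 := pow_le_pow_right₀ hu1 (by norm_num)
      have e3 : u ^ 36 * u ^ 100 = u ^ 136 := by ring
      linarith
    calc u ^ 36 * u ^ 100 + u ^ 42 ≤ 2 * u ^ 136 := e1
      _ < u * u ^ 136 := by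
          have : 0 < u ^ 136 := by positivity
          nlinarith
      _ = u ^ 137 := by ring
      _ ≤ u ^ 200 := pow_le_pow_right₀ hu1 (by norm_num)
      _ = (u ^ 100) ^ 2 := by ring
  have hc20 : c2 = 0 := by
    by_contra h0
    have h3 : (1 : ℝ) ≤ |(c2 : ℝ)| := by exact_mod_cast Int.one_le_abs h0
    have h4 : |(c2 : ℝ)| * x ^ 2 ≤ |(c1 : ℝ)| * x + |(c0 : ℝ)| := by
      have h5 : (c2 : ℝ) * x ^ 2 = c1 * x - c0 := by linarith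
      have h6 := congrArg abs h5
      rw [abs_mul, abs_of_pos (by positivity : (0 : ℝ) < (x : ℝ) ^ 2)] at h6
      rw [h6]
      refine (abs_sub _ _).trans ?_
      rw [abs_mul, abs_of_pos hx]
    have h7 : (x : ℝ) ^ 2 ≤ u ^ 36 * x + u ^ 42 := by
      calc (x : ℝ) ^ 2 = 1 * x ^ 2 := by ring
        _ ≤ |(c2 : ℝ)| * x ^ 2 := by gcongr
        _ ≤ _ := h4
        _ ≤ _ := by gcongr
    linarith
  have hc10 : c1 = 0 := by
    by_contra h0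
    have h3 : (1 : ℝ) ≤ |(c1 : ℝ)| := by exact_mod_cast Int.one_le_abs h0
    have h4 : |(c1 : ℝ)| * x = |(c0 : ℝ)| := by
      have h5 : (c1 : ℝ) * x = c0 := by
        rw [hc20] at hidr
        push_cast at hidr
        linarith
      have h6 := congrArg abs h5
      rw [abs_mul, abs_of_pos hx] at h6
      exact h6
    have h7 : (x : ℝ) ≤ u ^ 42 := by
      calc (x : ℝ) = 1 * x := by ring
        _ ≤ |(c1 : ℝ)| * x := by gcongr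
        _ = _ := h4
        _ ≤ _ := hc0u
    rw [hxu] at h7
    have h8 : u ^ 42 < u ^ 100 := pow_lt_pow_right₀ (by linarith) (by norm_num)
    linarith
  rw [hc2] at hc20
  rw [hc1] at hc10
  have h9 : 2 * B0 * D0 * (D0 ^ 2 * h ^ 2 + 3 * D1 ^ 2) = 0 := by
    linear_combination hc10 - h * hc20
  have hD0ne : D0 ≠ 0 := by rw [hD0]; exact sub_ne_zero.2 hne
  have h10 : 0 < D0 ^ 2 * h ^ 2 + 3 * D1 ^ 2 := by positivity
  have h11 : 2 * B0 * D0 ≠ 0 := by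
    have : B0 ≠ 0 := by omega
    positivity
  rcases mul_eq_zero.1 h9 with h12 | h12
  · exact h11 h12
  · exact h10.ne' h12

end Pool.Agent.CubeGap
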