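import Pool.Agent.CubeGap.Pade3
import Pool.Agent.CubeGap.Dzero
import Pool.Agent.CubeGap.Window

set_option autoImplicit false

/-!
# At most one ratio
-/

namespace Pool.Agent.CubeGap

open Real

theorem gcd_step {s1 t1 s2 t2 a b G c h : ℕ} (hs1 : 0 < s1) (ht2 : 0 < t2)
    (hb : 0 < b) (hc : 0 < c) (hh : 0 < h) (hG : 0 < G)
    (hPQ : s1 * t2 * a = t1 * s2 * b) (hg : Nat.gcd a b ∣ G) (hs : Nat.gcd s1 b ∣ c)
    (ht : Nat.gcd t1 a ∣ c) (hst : Nat.gcd s1 t1 ∣ h) : t1 * b ≤ G * c * h * t2 := by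
  obtain ⟨g, hgdef⟩ : ∃ g, g = Nat.gcd a b := ⟨_, rfl⟩
  have hg0 : 0 < g := by rw [hgdef]; exact Nat.gcd_pos_of_pos_right a hb
  obtain ⟨a', ha'⟩ : g ∣ a := by rw [hgdef]; exact Nat.gcd_dvd_left a b
  obtain ⟨b', hb'⟩ : g ∣ b := by rw [hgdef]; exact Nat.gcd_dvd_right a b
  have hcop : Nat.Coprime a' b' := by
    have h1 : Nat.gcd (g * a') (g * b') = g * Nat.gcd a' b' := Nat.gcd_mul_left g a' b'
    rw [← ha', ← hb', ← hgdef] at h1
    have h2 : g * Nat.gcd a' b' = g * 1 := by rw [← h1, mul_one]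
    exact Nat.eq_of_mul_eq_mul_left hg0 h2
  have hb'0 : 0 < b' := by
    rcases Nat.eq_zero_or_pos b' with h | h
    · rw [h, mul_zero] at hb'
      omega
    · exact h
  have hPQ' : s1 * t2 * a' = t1 * s2 * b' := by
    apply Nat.eq_of_mul_eq_mul_left hg0
    calc g * (s1 * t2 * a') = s1 * t2 * (g * a') := by ring
      _ = s1 * t2 * a := by rw [← ha']
      _ = t1 * s2 * b := hPQ
      _ = t1 * s2 * (g * b') := by rw [← hb']
      _ = g * (t1 * s2 * b') := by ring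
  obtain ⟨k, hk⟩ : b' ∣ s1 * t2 := by
    have h1 : b' ∣ s1 * t2 * a' := ⟨t1 * s2, by rw [hPQ']; ring⟩
    exact hcop.symm.dvd_of_dvd_mul_right h1
  have hk2 : t1 * s2 = k * a' := by
    apply Nat.eq_of_mul_eq_mul_left hb'0
    calc b' * (t1 * s2) = t1 * s2 * b' := by ring
      _ = s1 * t2 * a' := hPQ'.symm
      _ = b' * k * a' := by rw [hk]
      _ = b' * (k * a') := by ring
  have hk0 : 0 < k := by
    rcases Nat.eq_zero_or_pos k with h | h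
    · rw [h, mul_zero] at hk
      have : 0 < s1 * t2 := Nat.mul_pos hs1 ht2
      omega
    · exact h
  have hs1k : s1 ∣ k * c := by
    have h1 : s1 ∣ b' * k := ⟨t2, hk.symm⟩
    have h2 : s1 ∣ Nat.gcd s1 b' * k := by
      have h3 := Nat.dvd_gcd (Dvd.intro k rfl : s1 ∣ s1 * k) h1
      rwa [Nat.gcd_mul_right] at h3
    have h4 : Nat.gcd s1 b' ∣ c :=
      (Nat.gcd_dvd_gcd_of_dvd_right s1 (by rw [hb']; exact Dvd.intro_left g rfl)).trans hs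
    rw [mul_comm k c]
    exact h2.trans (Nat.mul_dvd_mul_right h4 k)
  have ht1k : t1 ∣ k * c := by
    have h1 : t1 ∣ a' * k := ⟨s2, by rw [mul_comm a' k]; exact hk2.symm⟩
    have h2 : t1 ∣ Nat.gcd t1 a' * k := by
      have h3 := Nat.dvd_gcd (Dvd.intro k rfl : t1 ∣ t1 * k) h1
      rwa [Nat.gcd_mul_right] at h3
    have h4 : Nat.gcd t1 a' ∣ c :=
      (Nat.gcd_dvd_gcd_of_dvd_right t1 (by rw [ha']; exact Dvd.intro_left g rfl)).trans ht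
    rw [mul_comm k c]
    exact h2.trans (Nat.mul_dvd_mul_right h4 k)
  have hlcm : Nat.lcm s1 t1 ≤ k * c := Nat.le_of_dvd (Nat.mul_pos hk0 hc) (Nat.lcm_dvd hs1k ht1k)
  have hst' : s1 * t1 ≤ h * (k * c) := by
    rw [← Nat.gcd_mul_lcm s1 t1]
    exact Nat.mul_le_mul (Nat.le_of_dvd hh hst) hlcm
  have hgG : g ≤ G := Nat.le_of_dvd hG (by rw [hgdef]; exact hg)
  have h5 : s1 * (t1 * b) ≤ s1 * (G * c * h * t2) := by
    calc s1 * (t1 * b) = s1 * t1 * (g * b') := by rw [hb']; ring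
      _ ≤ h * (k * c) * (G * b') := by gcongr
      _ = G * c * h * (b' * k) := by ring
      _ = G * c * h * (s1 * t2) := by rw [hk]
      _ = s1 * (G * c * h * t2) := by ring
  exact Nat.le_of_mul_le_mul_left h5 hs1

/-- `r = 1`: exact equality with the first approximant forces `X` to be large. -/
theorem exact_one {A B s1 t1 s2 t2 x y h : ℕ} (hs1 : 0 < s1)
    (ht2 : 0 < t2) (hh : 0 < h) (hx : x = A * s1 ^ 3) (hy : y = B * t1 ^ 3) (hxy : x = y + h)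
    (hE : s1 * t2 * (x + 2 * y) = t1 * s2 * (2 * x + y)) :
    y * (2 * x) ^ 3 ≤ (B * t2 ^ 3) * h ^ 9 := by
  have hdx : s1 ∣ x := by rw [hx]; exact Dvd.dvd.mul_left (dvd_pow_self s1 (by norm_num)) A
  have hdy : t1 ∣ y := by rw [hy]; exact Dvd.dvd.mul_left (dvd_pow_self t1 (by norm_num)) B
  have key := gcd_step (a := x + 2 * y) (b := 2 * x + y) (G := h) (c := h) (h := h) hs1 ht2
    (by omega) hh hh hh hE ?_ ?_ ?_ ?_
  · have h1 : (t1 * (2 * x)) ^ 3 ≤ (h * h * h * t2) ^ 3 := by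
      apply Nat.pow_le_pow_left
      exact le_trans (Nat.mul_le_mul_left t1 (by omega)) key
    calc y * (2 * x) ^ 3 = B * (t1 * (2 * x)) ^ 3 := by rw [hy]; ring
      _ ≤ B * (h * h * h * t2) ^ 3 := Nat.mul_le_mul_left B h1
      _ = (B * t2 ^ 3) * h ^ 9 := by ring
  · have h1 : (2 * x + y) = (x + 2 * y) + h := by omega
    have h2 := Nat.gcd_dvd_left (x + 2 * y) (2 * x + y)
    have h3 := Nat.gcd_dvd_right (x + 2 * y) (2 * x + y)
    rw [h1] at h3 ⊢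
    rw [h1] at h2
    exact (Nat.dvd_add_right h2).1 h3
  · -- gcd s1 (2x+y) ∣ h
    have h1 : Nat.gcd s1 (2 * x + y) ∣ x := (Nat.gcd_dvd_left _ _).trans hdx
    have h2 : Nat.gcd s1 (2 * x + y) ∣ 2 * x + y := Nat.gcd_dvd_right _ _
    have h3 : Nat.gcd s1 (2 * x + y) ∣ y := (Nat.dvd_add_right (Dvd.dvd.mul_left h1 2)).1 h2
    have h4 : Nat.gcd s1 (2 * x + y) ∣ y + h := by rw [← hxy]; exact h1
    exact (Nat.dvd_add_right h3).1 h4
  · have h1 : Nat.gcd t1 (x + 2 * y) ∣ y := (Nat.gcd_dvd_left _ _).trans hdy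
    have h2 : Nat.gcd t1 (x + 2 * y) ∣ x + 2 * y := Nat.gcd_dvd_right _ _
    have h3 : Nat.gcd t1 (x + 2 * y) ∣ x := (Nat.dvd_add_left (Dvd.dvd.mul_left h1 2)).1 h2
    have h4 : Nat.gcd t1 (x + 2 * y) ∣ y + h := by
      obtain ⟨g, hg⟩ : ∃ g, g = Nat.gcd t1 (x + 2 * y) := ⟨_, rfl⟩
      rw [← hg] at h3 ⊢
      rwa [hxy] at h3
    exact (Nat.dvd_add_right h1).1 h4
  · have h1 : Nat.gcd s1 t1 ∣ x := (Nat.gcd_dvd_left _ _).trans hdx
    have h2 : Nat.gcd s1 t1 ∣ y := (Nat.gcd_dvd_right _ _).trans hdy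
    rw [hxy] at h1
    exact (Nat.dvd_add_right h2).1 h1

/-- `r = 2`. -/
theorem exact_two {A B s1 t1 s2 t2 x y h : ℕ} (hs1 : 0 < s1)
    (ht2 : 0 < t2) (hh : 0 < h) (hx : x = A * s1 ^ 3) (hy : y = B * t1 ^ 3) (hxy : x = y + h)
    (hE : s1 * t2 * (5 * x ^ 2 + 35 * x * y + 14 * y ^ 2) =
      t1 * s2 * (14 * x ^ 2 + 35 * x * y + 5 * y ^ 2)) :
    y * (14 * x ^ 2) ^ 3 ≤ (B * t2 ^ 3) * (20 * h ^ 6) ^ 3 := by
  have hdx : s1 ∣ x := by rw [hx]; exact Dvd.dvd.mul_left (dvd_pow_self s1 (by norm_num)) A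
  have hdy : t1 ∣ y := by rw [hy]; exact Dvd.dvd.mul_left (dvd_pow_self t1 (by norm_num)) B
  have hx0 : 0 < x := by omega
  have key := gcd_step (a := 5 * x ^ 2 + 35 * x * y + 14 * y ^ 2)
    (b := 14 * x ^ 2 + 35 * x * y + 5 * y ^ 2) (G := 4 * h ^ 3) (c := 5 * h ^ 2) (h := h) hs1 ht2
    (by positivity) (by positivity) hh (by positivity) hE ?_ ?_ ?_ ?_
  · have h1 : (t1 * (14 * x ^ 2)) ^ 3 ≤ (4 * h ^ 3 * (5 * h ^ 2) * h * t2) ^ 3 := by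
      apply Nat.pow_le_pow_left
      refine le_trans (Nat.mul_le_mul_left t1 ?_) key
      rw [add_assoc]
      exact Nat.le_add_right _ _
    calc y * (14 * x ^ 2) ^ 3 = B * (t1 * (14 * x ^ 2)) ^ 3 := by rw [hy]; ring
      _ ≤ B * (4 * h ^ 3 * (5 * h ^ 2) * h * t2) ^ 3 := Nat.mul_le_mul_left B h1
      _ = (B * t2 ^ 3) * (20 * h ^ 6) ^ 3 := by ring
  · -- gcd a b ∣ 4 h^3
    obtain ⟨g, hg⟩ : ∃ g, g = Nat.gcd (5 * x ^ 2 + 35 * x * y + 14 * y ^ 2)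
      (14 * x ^ 2 + 35 * x * y + 5 * y ^ 2) := ⟨_, rfl⟩
    rw [← hg]
    have h1 : (g : ℤ) ∣ ((5 * x ^ 2 + 35 * x * y + 14 * y ^ 2 : ℕ) : ℤ) := by
      rw [hg]; exact_mod_cast Nat.gcd_dvd_left _ _
    have h2 : (g : ℤ) ∣ ((14 * x ^ 2 + 35 * x * y + 5 * y ^ 2 : ℕ) : ℤ) := by
      rw [hg]; exact_mod_cast Nat.gcd_dvd_right _ _
    have h3 : (g : ℤ) ∣ (((4 * h ^ 3 : ℕ)) : ℤ) := by
      have h4 : ((4 * h ^ 3 : ℕ) : ℤ) =
          ((14 * x ^ 2 + 35 * x * y + 5 * y ^ 2 : ℕ) : ℤ) * (3 * x - 2 * h) -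
          ((5 * x ^ 2 + 35 * x * y + 14 * y ^ 2 : ℕ) : ℤ) * (3 * x - h) := by
        have h5 : (x : ℤ) = y + h := by exact_mod_cast hxy
        push_cast
        rw [h5]
        ring
      rw [h4]
      exact dvd_sub (Dvd.dvd.mul_right h2 _) (Dvd.dvd.mul_right h1 _)
    exact_mod_cast h3
  · obtain ⟨g, hg⟩ : ∃ g, g = Nat.gcd s1 (14 * x ^ 2 + 35 * x * y + 5 * y ^ 2) := ⟨_, rfl⟩
    rw [← hg]
    have h1 : (g : ℤ) ∣ x := by
      have : g ∣ x := by rw [hg]; exact (Nat.gcd_dvd_left _ _).trans hdx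
      exact_mod_cast this
    have h2 : (g : ℤ) ∣ ((14 * x ^ 2 + 35 * x * y + 5 * y ^ 2 : ℕ) : ℤ) := by
      rw [hg]; exact_mod_cast Nat.gcd_dvd_right _ _
    have h3 : (g : ℤ) ∣ (((5 * h ^ 2 : ℕ)) : ℤ) := by
      have h4 : ((5 * h ^ 2 : ℕ) : ℤ) =
          ((14 * x ^ 2 + 35 * x * y + 5 * y ^ 2 : ℕ) : ℤ) - (x : ℤ) * (54 * x - 45 * h) := by
        have h5 : (x : ℤ) = y + h := by exact_mod_cast hxy
        push_cast
        rw [h5]
        ring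
      rw [h4]
      exact dvd_sub h2 (Dvd.dvd.mul_right h1 _)
    exact_mod_cast h3
  · obtain ⟨g, hg⟩ : ∃ g, g = Nat.gcd t1 (5 * x ^ 2 + 35 * x * y + 14 * y ^ 2) := ⟨_, rfl⟩
    rw [← hg]
    have h1 : (g : ℤ) ∣ y := by
      have : g ∣ y := by rw [hg]; exact (Nat.gcd_dvd_left _ _).trans hdy
      exact_mod_cast this
    have h2 : (g : ℤ) ∣ ((5 * x ^ 2 + 35 * x * y + 14 * y ^ 2 : ℕ) : ℤ) := by
      rw [hg]; exact_mod_cast Nat.gcd_dvd_right _ _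
    have h3 : (g : ℤ) ∣ (((5 * h ^ 2 : ℕ)) : ℤ) := by
      have h4 : ((5 * h ^ 2 : ℕ) : ℤ) =
          ((5 * x ^ 2 + 35 * x * y + 14 * y ^ 2 : ℕ) : ℤ) - (y : ℤ) * (54 * y + 45 * h) := by
        have h5 : (x : ℤ) = y + h := by exact_mod_cast hxy
        push_cast
        rw [h5]
        ring
      rw [h4]
      exact dvd_sub h2 (Dvd.dvd.mul_right h1 _)
    exact_mod_cast h3
  · have h1 : Nat.gcd s1 t1 ∣ x := (Nat.gcd_dvd_left _ _).trans hdx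
    have h2 : Nat.gcd s1 t1 ∣ y := (Nat.gcd_dvd_right _ _).trans hdy
    rw [hxy] at h1
    exact (Nat.dvd_add_right h2).1 h1

end Pool.Agent.CubeGap
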