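import Pool.Agent.CubeGap.Main

set_option autoImplicit false

/-!
# Symmetric form of the core theorem, and 3-powerful numbers
-/

namespace Pool.Agent.CubeGap

open Real

theorem near_facts {n m : ℕ} (hn : 100 ^ 100 ≤ n) (h : |(n : ℝ) - m| ^ 100 ≤ n) :
    (n : ℝ) ≤ 11 / 10 * m ∧ (m : ℝ) ≤ 11 / 10 * n := by
  have hn' : (100 : ℝ) ^ 100 ≤ n := by exact_mod_cast hn
  have hn0 : (0 : ℝ) < n := lt_of_lt_of_le (by positivity) hn'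
  have hn1 : (1 : ℝ) ≤ n := le_trans (one_le_pow₀ (by norm_num)) hn'
  have hn100 : (100 : ℝ) ≤ n := by
    calc (100 : ℝ) = 100 ^ 1 := by norm_num
      _ ≤ 100 ^ 100 := pow_le_pow_right₀ (by norm_num) (by norm_num)
      _ ≤ n := hn'
  have key : |(n : ℝ) - m| ≤ n / 100 := by
    by_contra hcon
    push Not at hcon
    have h1 : ((n : ℝ) / 100) ^ 100 ≤ n := (pow_le_pow_left₀ (by positivity) hcon.le 100).trans h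
    have h2 : (n : ℝ) < (n / 100) ^ 100 := by
      rw [div_pow, lt_div_iff₀ (by positivity)]
      calc (n : ℝ) * 100 ^ 100 ≤ n * n := by gcongr
        _ = n ^ 2 := by ring
        _ < n ^ 100 := pow_lt_pow_right₀ (by linarith) (by norm_num)
    linarith
  rw [abs_le] at key
  constructor
  · linarith
  · linarith

/-- Both orders inside a pair; `n1 ≤ n2`. -/
theorem core_symm : ∃ N0 : ℕ, ∀ A B s1 t1 s2 t2 : ℕ, 0 < A → 0 < B → 0 < s1 → 0 < t1 →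
    0 < s2 → 0 < t2 → A * s1 ^ 3 ≠ B * t1 ^ 3 → N0 ≤ A * s1 ^ 3 → A * s1 ^ 3 ≤ A * s2 ^ 3 →
    |((A * s1 ^ 3 : ℕ) : ℝ) - ((B * t1 ^ 3 : ℕ) : ℝ)| ^ 100 ≤ ((A * s1 ^ 3 : ℕ) : ℝ) →
    |((A * s2 ^ 3 : ℕ) : ℝ) - ((B * t2 ^ 3 : ℕ) : ℝ)| ^ 100 ≤ ((A * s2 ^ 3 : ℕ) : ℝ) →
    s1 * t2 = t1 * s2 := by
  obtain ⟨N0, hcore⟩ := core
  refine ⟨N0 + 100 ^ 100, ?_⟩
  intro A B s1 t1 s2 t2 hA hB hs1 ht1 hs2 ht2 hne hN hle h1 h2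
  have hN1 : 100 ^ 100 ≤ A * s1 ^ 3 := by omega
  have hN2 : 100 ^ 100 ≤ A * s2 ^ 3 := by omega
  obtain ⟨f1, f2⟩ := near_facts hN1 h1
  obtain ⟨g1, g2⟩ := near_facts hN2 h2
  have hler : ((A * s1 ^ 3 : ℕ) : ℝ) ≤ ((A * s2 ^ 3 : ℕ) : ℝ) := by exact_mod_cast hle
  rcases Nat.lt_or_gt_of_ne hne with hlt | hlt
  · -- `n1 < m1`
    have hx : B * t1 ^ 3 = A * s1 ^ 3 + (B * t1 ^ 3 - A * s1 ^ 3) := by omega
    have hc := hcore B A t1 s1 t2 s2 (B * t1 ^ 3) (A * s1 ^ 3) (B * t2 ^ 3) (A * s2 ^ 3)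
      (B * t1 ^ 3 - A * s1 ^ 3) hB hA ht1 hs1 ht2 hs2 rfl rfl rfl rfl hx (by omega) (by omega)
      ?_ ?_ ?_
    · rw [← hc]
    · have h3 : (((B * t1 ^ 3 - A * s1 ^ 3 : ℕ)) : ℝ) = |((A * s1 ^ 3 : ℕ) : ℝ) -
        ((B * t1 ^ 3 : ℕ) : ℝ)| := by
        rw [Nat.cast_sub hlt.le, abs_sub_comm, abs_of_pos]
        rw [sub_pos]
        exact_mod_cast hlt
      have h4 : (((B * t1 ^ 3 - A * s1 ^ 3 : ℕ)) : ℝ) ^ 100 ≤ ((A * s1 ^ 3 : ℕ) : ℝ) := by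
        rw [h3]; exact h1
      have h5 : (B * t1 ^ 3 - A * s1 ^ 3) ^ 100 ≤ A * s1 ^ 3 := by exact_mod_cast h4
      omega
    · rw [abs_sub_comm]
      have hpos : (0 : ℝ) ≤ ((B * t2 ^ 3 : ℕ) : ℝ) := Nat.cast_nonneg _
      linarith
    · have h3 : ((B * t1 ^ 3 : ℕ) : ℝ) ≤ 2 * ((B * t2 ^ 3 : ℕ) : ℝ) := by
        have hpos : (0 : ℝ) ≤ ((B * t2 ^ 3 : ℕ) : ℝ) := Nat.cast_nonneg _
        linarith
      exact_mod_cast h3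
  · -- `m1 < n1`
    have hx : A * s1 ^ 3 = B * t1 ^ 3 + (A * s1 ^ 3 - B * t1 ^ 3) := by omega
    refine hcore A B s1 t1 s2 t2 (A * s1 ^ 3) (B * t1 ^ 3) (A * s2 ^ 3) (B * t2 ^ 3)
      (A * s1 ^ 3 - B * t1 ^ 3) hA hB hs1 ht1 hs2 ht2 rfl rfl rfl rfl hx (by omega) (by omega)
      ?_ ?_ ?_
    · have h3 : (((A * s1 ^ 3 - B * t1 ^ 3 : ℕ)) : ℝ) = |((A * s1 ^ 3 : ℕ) : ℝ) -
        ((B * t1 ^ 3 : ℕ) : ℝ)| := by
        rw [Nat.cast_sub hlt.le, abs_of_pos]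
        rw [sub_pos]
        exact_mod_cast hlt
      have h4 : (((A * s1 ^ 3 - B * t1 ^ 3 : ℕ)) : ℝ) ^ 100 ≤ ((A * s1 ^ 3 : ℕ) : ℝ) := by
        rw [h3]; exact h1
      exact_mod_cast h4
    · have hpos : (0 : ℝ) ≤ ((A * s2 ^ 3 : ℕ) : ℝ) := Nat.cast_nonneg _
      linarith
    · omega

/-- The general form. -/
theorem one_ratio : ∃ c : ℝ, 0 < c ∧ ∀ A B s1 t1 s2 t2 : ℕ, 0 < A → 0 < B → 0 < s1 → 0 < t1 →
    0 < s2 → 0 < t2 → A * s1 ^ 3 ≠ B * t1 ^ 3 → A * s2 ^ 3 ≠ B * t2 ^ 3 →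
    |((A * s1 ^ 3 : ℕ) : ℝ) - ((B * t1 ^ 3 : ℕ) : ℝ)| ≤
      c * ((A * s1 ^ 3 : ℕ) : ℝ) ^ ((1 : ℝ) / 100) →
    |((A * s2 ^ 3 : ℕ) : ℝ) - ((B * t2 ^ 3 : ℕ) : ℝ)| ≤
      c * ((A * s2 ^ 3 : ℕ) : ℝ) ^ ((1 : ℝ) / 100) →
    s1 * t2 = t1 * s2 := by
  obtain ⟨N0, hcore⟩ := core_symm
  refine ⟨1 / ((N0 : ℝ) + 1), by positivity, ?_⟩
  intro A B s1 t1 s2 t2 hA hB hs1 ht1 hs2 ht2 hne1 hne2 h1 h2
  have hc0 : (0 : ℝ) < 1 / ((N0 : ℝ) + 1) := by positivity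
  have hc1 : 1 / ((N0 : ℝ) + 1) ≤ 1 := by
    rw [div_le_one (by positivity)]
    have : (0 : ℝ) ≤ N0 := Nat.cast_nonneg _
    linarith
  -- consequences of closeness
  have aux : ∀ n m : ℕ, 0 < n → n ≠ m →
      |(n : ℝ) - (m : ℝ)| ≤ 1 / ((N0 : ℝ) + 1) * (n : ℝ) ^ ((1 : ℝ) / 100) →
      N0 ≤ n ∧ |(n : ℝ) - (m : ℝ)| ^ 100 ≤ n := by
    intro n m hn hnm h
    have hn0 : (0 : ℝ) < n := by exact_mod_cast hn
    have hn1 : (1 : ℝ) ≤ n := by exact_mod_cast hn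
    have hd : (1 : ℝ) ≤ |(n : ℝ) - (m : ℝ)| := by
      have h3 : (1 : ℤ) ≤ |(n : ℤ) - (m : ℤ)| := Int.one_le_abs (by omega)
      exact_mod_cast h3
    have hu0 : 0 ≤ (n : ℝ) ^ ((1 : ℝ) / 100) := by positivity
    have hu : ((n : ℝ) ^ ((1 : ℝ) / 100)) ^ 100 = n := by
      rw [← Real.rpow_natCast, ← Real.rpow_mul hn0.le]
      norm_num
    constructor
    · have h3 : (N0 : ℝ) + 1 ≤ (n : ℝ) ^ ((1 : ℝ) / 100) := by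
        have h4 : 1 ≤ 1 / ((N0 : ℝ) + 1) * (n : ℝ) ^ ((1 : ℝ) / 100) := hd.trans h
        have h5 : (0 : ℝ) < (N0 : ℝ) + 1 := by positivity
        have h6 := mul_le_mul_of_nonneg_left h4 h5.le
        rw [mul_one, ← mul_assoc, mul_one_div_cancel h5.ne', one_mul] at h6
        exact h6
      have h4 : (n : ℝ) ^ ((1 : ℝ) / 100) ≤ n := by
        calc (n : ℝ) ^ ((1 : ℝ) / 100) ≤ (n : ℝ) ^ (1 : ℝ) :=
              Real.rpow_le_rpow_of_exponent_le hn1 (by norm_num)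
          _ = n := Real.rpow_one _
      have h5 : (N0 : ℝ) ≤ n := by linarith
      exact_mod_cast h5
    · have h3 : |(n : ℝ) - (m : ℝ)| ≤ (n : ℝ) ^ ((1 : ℝ) / 100) := by
        refine h.trans ?_
        nlinarith
      have h4 : |(n : ℝ) - (m : ℝ)| ^ 100 ≤ ((n : ℝ) ^ ((1 : ℝ) / 100)) ^ 100 :=
        pow_le_pow_left₀ (abs_nonneg _) h3 100
      rw [hu] at h4
      exact h4
  obtain ⟨a1, a2⟩ := aux _ _ (Nat.mul_pos hA (pow_pos hs1 3)) hne1 h1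
  obtain ⟨b1, b2⟩ := aux _ _ (Nat.mul_pos hA (pow_pos hs2 3)) hne2 h2
  rcases le_total (A * s1 ^ 3) (A * s2 ^ 3) with hle | hle
  · exact hcore A B s1 t1 s2 t2 hA hB hs1 ht1 hs2 ht2 hne1 a1 hle a2 b2
  · have := hcore A B s2 t2 s1 t1 hA hB hs2 ht2 hs1 ht1 hne2 b1 hle b2 a2
    rw [mul_comm t1 s2, this, mul_comm]

end Pool.Agent.CubeGap
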