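import Pool.Agent.CubeGap.Core

set_option autoImplicit false

/-!
# The core theorem
-/

namespace Pool.Agent.CubeGap

open Real

/-- The approximation property of the explicit approximant `r = 1`. -/
theorem rem_one {x y h θ : ℝ} (hx : 0 < x) (hh : 0 < h) (hyx : y = x - h) (hy : x / 2 ≤ y)
    (hθ0 : 0 ≤ θ) (hθ : θ ^ 3 = y / x) :
    |(x + 2 * y) - θ * (2 * x + y)| ≤ 2 * h ^ 3 / x ^ 2 := by
  have hy0 : 0 < y := by linarith
  have hyx' : y ≤ x := by linarith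
  have h1 : ((x + 2 * y) - θ * (2 * x + y)) * ((x + 2 * y) ^ 2 + (x + 2 * y) * (θ * (2 * x + y)) +
      (θ * (2 * x + y)) ^ 2) = h ^ 3 * (x + y) / x := by
    have h2 : (x + 2 * y) ^ 3 - (θ * (2 * x + y)) ^ 3 = h ^ 3 * (x + y) / x := by
      rw [mul_pow, hθ, hyx]
      field_simp
      ring
    rw [← h2]
    ring
  have h3 : |(x + 2 * y) - θ * (2 * x + y)| * (x + 2 * y) ^ 2 ≤ h ^ 3 * (x + y) / x := by
    have h4 := congrArg abs h1
    rw [abs_mul, abs_of_pos (by positivity : 0 < (x + 2 * y) ^ 2 +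
      (x + 2 * y) * (θ * (2 * x + y)) + (θ * (2 * x + y)) ^ 2),
      abs_of_pos (by positivity : 0 < h ^ 3 * (x + y) / x)] at h4
    rw [← h4]
    have h5 : 0 ≤ (x + 2 * y) * (θ * (2 * x + y)) + (θ * (2 * x + y)) ^ 2 := by positivity
    have h6 := abs_nonneg ((x + 2 * y) - θ * (2 * x + y))
    nlinarith
  rw [le_div_iff₀ (by positivity)]
  calc |(x + 2 * y) - θ * (2 * x + y)| * x ^ 2 ≤
        |(x + 2 * y) - θ * (2 * x + y)| * (x + 2 * y) ^ 2 := by
        gcongr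
        linarith
    _ ≤ h ^ 3 * (x + y) / x := h3
    _ ≤ h ^ 3 * (x + x) / x := by gcongr
    _ = 2 * h ^ 3 := by field_simp; ring

/-- The approximation property of the explicit approximant `r = 2`. -/
theorem rem_two {x y h θ : ℝ} (hx : 0 < x) (hh : 0 < h) (hyx : y = x - h) (hy : x / 2 ≤ y)
    (hθ0 : 0 ≤ θ) (hθ : θ ^ 3 = y / x) :
    |(5 * x ^ 2 + 35 * x * y + 14 * y ^ 2) - θ * (14 * x ^ 2 + 35 * x * y + 5 * y ^ 2)| ≤
      2 * h ^ 5 / x ^ 3 := by
  have hy0 : 0 < y := by linarith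
  have hyx' : y ≤ x := by linarith
  obtain ⟨a, ha⟩ : ∃ a, a = 5 * x ^ 2 + 35 * x * y + 14 * y ^ 2 := ⟨_, rfl⟩
  obtain ⟨b, hb⟩ : ∃ b, b = 14 * x ^ 2 + 35 * x * y + 5 * y ^ 2 := ⟨_, rfl⟩
  rw [← ha, ← hb]
  have ha0 : 0 < a := by rw [ha]; positivity
  have hb0 : 0 < b := by rw [hb]; positivity
  have ha20 : 20 * x ^ 2 ≤ a := by rw [ha]; nlinarith
  have h1 : (a - θ * b) * (a ^ 2 + a * (θ * b) + (θ * b) ^ 2) =
      h ^ 5 * (125 * x ^ 2 + 506 * x * y + 125 * y ^ 2) / x := by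
    have h2 : a ^ 3 - (θ * b) ^ 3 = h ^ 5 * (125 * x ^ 2 + 506 * x * y + 125 * y ^ 2) / x := by
      have hxe : x * a ^ 3 - y * b ^ 3 = h ^ 5 * (125 * x ^ 2 + 506 * x * y + 125 * y ^ 2) := by
        have : h = x - y := by rw [hyx]; ring
        rw [ha, hb, this]
        ring
      rw [mul_pow, hθ, eq_div_iff hx.ne', ← hxe]
      field_simp
    rw [← h2]
    ring
  have h3 : |a - θ * b| * a ^ 2 ≤ h ^ 5 * (125 * x ^ 2 + 506 * x * y + 125 * y ^ 2) / x := by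
    have h4 := congrArg abs h1
    rw [abs_mul, abs_of_pos (by positivity : 0 < a ^ 2 + a * (θ * b) + (θ * b) ^ 2),
      abs_of_pos (by positivity : 0 < h ^ 5 * (125 * x ^ 2 + 506 * x * y + 125 * y ^ 2) / x)] at h4
    rw [← h4]
    have h5 : 0 ≤ a * (θ * b) + (θ * b) ^ 2 := by positivity
    have h6 := abs_nonneg (a - θ * b)
    nlinarith
  rw [le_div_iff₀ (by positivity)]
  have h7 : |a - θ * b| * (400 * x ^ 4) ≤ 756 * h ^ 5 * x := by
    calc |a - θ * b| * (400 * x ^ 4) = |a - θ * b| * (20 * x ^ 2) ^ 2 := by ring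
      _ ≤ |a - θ * b| * a ^ 2 := by gcongr
      _ ≤ h ^ 5 * (125 * x ^ 2 + 506 * x * y + 125 * y ^ 2) / x := h3
      _ ≤ h ^ 5 * (125 * x ^ 2 + 506 * x * x + 125 * x ^ 2) / x := by gcongr
      _ = 756 * h ^ 5 * x := by field_simp; ring
  have h8 : |a - θ * b| * x ^ 3 * (400 * x) ≤ 2 * h ^ 5 * (400 * x) := by
    have : 0 < h ^ 5 * x := by positivity
    nlinarith
  exact le_of_mul_le_mul_right h8 (by positivity)

theorem core : ∃ N0 : ℕ, ∀ A B s1 t1 s2 t2 x y X Y h : ℕ, 0 < A → 0 < B → 0 < s1 → 0 < t1 →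
    0 < s2 → 0 < t2 → x = A * s1 ^ 3 → y = B * t1 ^ 3 → X = A * s2 ^ 3 → Y = B * t2 ^ 3 →
    x = y + h → 0 < h → N0 ≤ x → h ^ 100 ≤ x → |(X : ℝ) - Y| ^ 100 ≤ 2 * X → x ≤ 2 * X →
    s1 * t2 = t1 * s2 := by
  obtain ⟨C0, hC0, a, b, hab, hind⟩ := pade3
  obtain ⟨C, hCdef⟩ : ∃ C, C = max C0 100 := ⟨_, rfl⟩
  have hC1 : 100 ≤ C := by rw [hCdef]; exact le_max_right _ _
  have hCC : C0 ≤ C := by rw [hCdef]; exact le_max_left _ _
  refine ⟨⌈Real.exp (100 * (log C + 2)) + 100 ^ 100⌉₊, ?_⟩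
  intro A B s1 t1 s2 t2 x y X Y h hA hB hs1 ht1 hs2 ht2 hx hy hX hY hxy hh hN hh100 hXY hxX
  have hNr : Real.exp (100 * (log C + 2)) + 100 ^ 100 ≤ (x : ℝ) :=
    (Nat.le_ceil _).trans (by exact_mod_cast hN)
  have hexp : Real.exp (100 * (log C + 2)) ≤ x := by
    have : (0 : ℝ) < 100 ^ 100 := by positivity
    linarith
  have hx100 : (100 : ℝ) ^ 100 ≤ x := by
    have := Real.exp_pos (100 * (log C + 2))
    linarith
  have hx0 : (0 : ℝ) < x := lt_of_lt_of_le (by positivity) hx100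
  have hx1 : (1 : ℝ) ≤ x := le_trans (one_le_pow₀ (by norm_num)) hx100
  have hL : 100 * (log C + 2) ≤ log x := by
    rw [Real.le_log_iff_exp_le hx0]
    exact hexp
  have hhr : (0 : ℝ) < h := by exact_mod_cast hh
  have hyr : (y : ℝ) = x - h := by rw [hxy]; push_cast; ring
  have hh100r : (h : ℝ) ^ 100 ≤ x := by exact_mod_cast hh100
  have hXpos : 0 < X := by rw [hX]; positivity
  have hYpos : 0 < Y := by rw [hY]; positivity
  have hypos : 0 < y := by rw [hy]; positivity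
  have hXr : (0 : ℝ) < X := by exact_mod_cast hXpos
  have hYr : (0 : ℝ) < Y := by exact_mod_cast hYpos
  have hy0 : (0 : ℝ) < y := by exact_mod_cast hypos
  have hX1 : (1 : ℝ) ≤ X := by exact_mod_cast hXpos
  -- u
  obtain ⟨u, hu⟩ : ∃ u : ℝ, u = (x : ℝ) ^ ((1 : ℝ) / 100) := ⟨_, rfl⟩
  have hu0 : 0 ≤ u := by rw [hu]; positivity
  have hxu : (x : ℝ) = u ^ 100 := by
    rw [hu, ← Real.rpow_natCast, ← Real.rpow_mul hx0.le]
    norm_num
  have hu100 : 100 ≤ u := by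
    rw [hxu] at hx100
    exact le_of_pow_le_pow_left₀ (by norm_num) hu0 hx100
  have hupos : 0 < u := by linarith
  have hu1 : 1 ≤ u := by linarith
  have hhu : (h : ℝ) ≤ u := by
    rw [hxu] at hh100r
    exact le_of_pow_le_pow_left₀ (by norm_num) hu0 hh100r
  have hlogu : log u = log x / 100 := by
    rw [hxu, Real.log_pow]
    push_cast
    ring
  have hhx : (h : ℝ) ≤ x / 2 := by
    have h1 : 2 * u ≤ x := by
      rw [hxu]
      calc 2 * u ≤ u * u := by nlinarith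
        _ = u ^ 2 := by ring
        _ ≤ u ^ 100 := pow_le_pow_right₀ (by linarith) (by norm_num)
    linarith
  have hy2 : (x : ℝ) / 2 ≤ y := by linarith
  have hxXr : (x : ℝ) ≤ 2 * X := by exact_mod_cast hxX
  -- `Y ≤ 2 X`
  have hYX : (Y : ℝ) ≤ 2 * X := by
    by_contra hcon
    push Not at hcon
    have h1 : (X : ℝ) ≤ |(X : ℝ) - Y| := by
      rw [abs_of_neg (by linarith)]
      linarith
    have h2 : (X : ℝ) ^ 100 ≤ 2 * X := (pow_le_pow_left₀ hXr.le h1 100).trans hXY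
    have h3 : (2 : ℝ) < X := by
      have : (100 : ℝ) ^ 1 ≤ 100 ^ 100 := pow_le_pow_right₀ (by norm_num) (by norm_num)
      linarith
    have h4 : (2 : ℝ) * X < X ^ 100 := by
      calc (2 : ℝ) * X < X * X := by nlinarith
        _ = X ^ 2 := by ring
        _ ≤ X ^ 100 := pow_le_pow_right₀ hX1 (by norm_num)
    linarith
  have hYXn : Y ≤ 2 * X := by exact_mod_cast hYX
  -- the equations
  have hP : ((s1 * t2 : ℕ) : ℝ) ^ 3 * ((A * B : ℕ) : ℝ) = x * Y := by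
    rw [hx, hY]; push_cast; ring
  have hQ : ((t1 * s2 : ℕ) : ℝ) ^ 3 * ((A * B : ℕ) : ℝ) = y * X := by
    rw [hy, hX]; push_cast; ring
  have hP0 : (0 : ℝ) < ((s1 * t2 : ℕ) : ℝ) := by exact_mod_cast Nat.mul_pos hs1 ht2
  have hQ0 : (0 : ℝ) < ((t1 * s2 : ℕ) : ℝ) := by exact_mod_cast Nat.mul_pos ht1 hs2
  have hAB : (1 : ℝ) ≤ ((A * B : ℕ) : ℝ) := by exact_mod_cast Nat.mul_pos hA hB
  -- case 1
  by_cases hc1 : (X : ℝ) ≤ u ^ 191
  · have h1 : |(X : ℝ) - Y| ≤ u ^ 2 := by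
      have h2 : |(X : ℝ) - Y| ^ 100 ≤ (u ^ 2) ^ 100 := by
        calc |(X : ℝ) - Y| ^ 100 ≤ 2 * X := hXY
          _ ≤ u * u ^ 191 := by gcongr; linarith
          _ = u ^ 192 := by ring
          _ ≤ u ^ 200 := pow_le_pow_right₀ hu1 (by norm_num)
          _ = (u ^ 2) ^ 100 := by ring
      exact le_of_pow_le_pow_left₀ (by norm_num) (by positivity) h2
    have h3 := gap0 (Pi := ((s1 * t2 : ℕ) : ℤ)) (Qi := ((t1 * s2 : ℕ) : ℤ)) (by push_cast; rfl)
      (by push_cast; rfl) hP0 hQ0 hAB hu100 hxu hhr hyr hhu hXr hP hQ hxXr hc1 h1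
    exact_mod_cast h3
  push Not at hc1
  -- case 2
  by_cases hc2 : (X : ℝ) ≤ u ^ 207
  · have h1 : |(X : ℝ) - Y| ≤ u ^ 3 := by
      have h2 : |(X : ℝ) - Y| ^ 100 ≤ (u ^ 3) ^ 100 := by
        calc |(X : ℝ) - Y| ^ 100 ≤ 2 * X := hXY
          _ ≤ u * u ^ 207 := by gcongr; linarith
          _ = u ^ 208 := by ring
          _ ≤ u ^ 300 := pow_le_pow_right₀ hu1 (by norm_num)
          _ = (u ^ 3) ^ 100 := by ring
      exact le_of_pow_le_pow_left₀ (by norm_num) (by positivity) h2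
    have h3 := window (x := x) (y := y) (X := X) (Y := Y) (P := ((s1 * t2 : ℕ) : ℤ))
      (Q := ((t1 * s2 : ℕ) : ℤ)) (B0 := ((A * B : ℕ) : ℤ)) (h := h) (u := u)
      (by exact_mod_cast Nat.mul_pos hs1 ht2) (by exact_mod_cast Nat.mul_pos ht1 hs2)
      (by exact_mod_cast Nat.mul_pos hA hB) hu100 (by push_cast; exact hxu) (by exact_mod_cast hh)
      (by rw [hxy]; push_cast; ring) (by push_cast; exact hhu) (by exact_mod_cast hXpos)
      (by exact_mod_cast hYpos) (by exact_mod_cast hYXn)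
      (by rw [hx, hY]; push_cast; ring) (by rw [hy, hX]; push_cast; ring)
      (by push_cast; exact hc1.le) (by push_cast; exact hc2) (by push_cast; exact h1)
    exact_mod_cast h3
  push Not at hc2
  exfalso
  have hLam : 207 / 100 * log x ≤ log X := by
    have h1 := Real.log_le_log (by positivity) hc2.le
    rw [Real.log_pow, hlogu] at h1
    push_cast at h1
    linarith
  have hLpos : 0 < log x := by
    have : 0 ≤ log C := log_nonneg (by linarith)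
    linarith
  have hlog2 : log 2 < 0.7 := by
    have := Real.log_two_lt_d9
    linarith
  have hlog2' : 0 < log 2 := Real.log_pos (by norm_num)
  -- theta
  obtain ⟨θ, hθdef⟩ : ∃ θ : ℝ, θ = (1 - (h : ℝ) / (x : ℝ)) ^ ((1 : ℝ) / 3) := ⟨_, rfl⟩
  have hbase : 0 ≤ 1 - (h : ℝ) / (x : ℝ) := by
    rw [sub_nonneg, div_le_one hx0]
    linarith
  have hθ0 : 0 ≤ θ := by rw [hθdef]; exact Real.rpow_nonneg hbase _
  have hθ : θ ^ 3 = y / x := by
    rw [hθdef, ← Real.rpow_natCast, ← Real.rpow_mul hbase, hyr]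
    norm_num
    field_simp
  have hlogh : log h ≤ log x / 100 := by
    have h1 := Real.log_le_log (by positivity) hh100r
    rw [Real.log_pow] at h1
    push_cast at h1
    linarith
  have D := fun (r : ℕ) (a b : ℤ) => dzero (x := x) (y := y) (X := X) (Y := Y)
    (P := ((s1 * t2 : ℕ) : ℝ)) (Q := ((t1 * s2 : ℕ) : ℝ)) (B0 := ((A * B : ℕ) : ℝ)) (h := h)
    (θ := θ) (C := C) (r := r) (a := a) (b := b) (Pi := ((s1 * t2 : ℕ) : ℤ))
    (Qi := ((t1 * s2 : ℕ) : ℤ)) (by push_cast; rfl) (by push_cast; rfl) hP0 hQ0 hAB hx1 hhr hyr hy0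
    hX1 hYr hYX hP hQ hθ0 hθ hh100r hXY (by linarith)
  -- case 3
  by_cases hc3 : log X ≤ 38 / 10 * log x
  · have h1 := D 1 ((x + 2 * y : ℕ) : ℤ) ((2 * x + y : ℕ) : ℤ) ?_ ?_ hL ?_ ?_
    · have h2 : s1 * t2 * (x + 2 * y) = t1 * s2 * (2 * x + y) := by exact_mod_cast h1
      have h3 := exact_one hs1 ht2 hh hx hy hxy h2
      have h4 : (y : ℝ) * (2 * x) ^ 3 ≤ Y * (h : ℝ) ^ 9 := by
        rw [hY]; exact_mod_cast h3
      have h5 : (x : ℝ) ^ 4 ≤ X * (h : ℝ) ^ 9 := by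
        have h6 : (x : ℝ) / 2 * (2 * x) ^ 3 ≤ 2 * X * (h : ℝ) ^ 9 := by
          calc (x : ℝ) / 2 * (2 * x) ^ 3 ≤ y * (2 * x) ^ 3 := by gcongr
            _ ≤ _ := h4
            _ ≤ 2 * X * (h : ℝ) ^ 9 := by gcongr
        nlinarith [h6, pow_pos hx0 4, mul_pos hXr (pow_pos hhr 9)]
      have h7 := Real.log_le_log (by positivity) h5
      rw [Real.log_pow, Real.log_mul (by positivity) (by positivity), Real.log_pow] at h7
      push_cast at h7
      linarith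
    · have h2 : (((2 * x + y : ℕ) : ℤ) : ℝ) = 2 * x + y := by push_cast; ring
      rw [h2, abs_of_pos (by positivity)]
      have h3 : (2 * x + y : ℝ) ≤ 3 * x := by linarith
      refine h3.trans ?_
      have h4 : (3 : ℝ) ≤ C ^ (1 + 1) := by
        calc (3 : ℝ) ≤ 100 ^ 2 := by norm_num
          _ ≤ C ^ (1 + 1) := by gcongr
      calc (3 : ℝ) * x ≤ C ^ (1 + 1) * x := by gcongr
        _ = _ := by ring
    · have h2 : (((2 * x + y : ℕ) : ℤ) : ℝ) = 2 * x + y := by push_cast; ring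
      have h2' : (((x + 2 * y : ℕ) : ℤ) : ℝ) = x + 2 * y := by push_cast; ring
      rw [h2, h2']
      refine (rem_one hx0 hhr hyr hy2 hθ0 hθ).trans ?_
      have h4 : (2 : ℝ) ≤ C ^ (1 + 1) := by
        calc (2 : ℝ) ≤ 100 ^ 2 := by norm_num
          _ ≤ C ^ (1 + 1) := by gcongr
      have h5 : (2 : ℝ) * h ^ 3 / x ^ 2 ≤ C ^ (1 + 1) * h ^ 3 / x ^ 2 := by gcongr
      exact h5
    · push_cast
      nlinarith
    · push_cast
      nlinarith
  push Not at hc3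
  -- case 4
  by_cases hc4 : log X ≤ 52 / 10 * log x
  · have h1 := D 2 ((5 * x ^ 2 + 35 * x * y + 14 * y ^ 2 : ℕ) : ℤ)
      ((14 * x ^ 2 + 35 * x * y + 5 * y ^ 2 : ℕ) : ℤ) ?_ ?_ hL ?_ ?_
    · have h2 : s1 * t2 * (5 * x ^ 2 + 35 * x * y + 14 * y ^ 2) =
        t1 * s2 * (14 * x ^ 2 + 35 * x * y + 5 * y ^ 2) := by exact_mod_cast h1
      have h3 := exact_two hs1 ht2 hh hx hy hxy h2
      have h4 : (y : ℝ) * (14 * x ^ 2) ^ 3 ≤ Y * (20 * (h : ℝ) ^ 6) ^ 3 := by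
        rw [hY]; exact_mod_cast h3
      have h5 : (x : ℝ) ^ 7 ≤ 12 * (X * (h : ℝ) ^ 18) := by
        have h6 : (x : ℝ) / 2 * (14 * x ^ 2) ^ 3 ≤ 2 * X * (20 * (h : ℝ) ^ 6) ^ 3 := by
          calc (x : ℝ) / 2 * (14 * x ^ 2) ^ 3 ≤ y * (14 * x ^ 2) ^ 3 := by gcongr
            _ ≤ _ := h4
            _ ≤ 2 * X * (20 * (h : ℝ) ^ 6) ^ 3 := by gcongr
        nlinarith [h6, pow_pos hx0 7, mul_pos hXr (pow_pos hhr 18)]
      have h7 := Real.log_le_log (by positivity) h5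
      rw [Real.log_pow, Real.log_mul (by norm_num) (by positivity),
        Real.log_mul (by positivity) (by positivity), Real.log_pow] at h7
      have h8 : log 12 ≤ 4 * log 2 := by
        have h9 : log 12 ≤ log 16 := Real.log_le_log (by norm_num) (by norm_num)
        have h10 : log 16 = 4 * log 2 := by
          rw [show (16 : ℝ) = 2 ^ 4 by norm_num, Real.log_pow]
          push_cast
          ring
        linarith
      have h11 : 200 ≤ log x := by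
        have : 0 ≤ log C := log_nonneg (by linarith)
        linarith
      push_cast at h7
      linarith
    · have h2 : (((14 * x ^ 2 + 35 * x * y + 5 * y ^ 2 : ℕ) : ℤ) : ℝ) =
        14 * x ^ 2 + 35 * x * y + 5 * y ^ 2 := by push_cast; ring
      rw [h2, abs_of_pos (by positivity)]
      have h3 : (14 * x ^ 2 + 35 * x * y + 5 * y ^ 2 : ℝ) ≤ 54 * x ^ 2 := by nlinarith
      refine h3.trans ?_
      have h4 : (54 : ℝ) ≤ C ^ (2 + 1) := by
        calc (54 : ℝ) ≤ 100 ^ 3 := by norm_num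
          _ ≤ C ^ (2 + 1) := by gcongr
      gcongr
    · have h2 : (((14 * x ^ 2 + 35 * x * y + 5 * y ^ 2 : ℕ) : ℤ) : ℝ) =
        14 * x ^ 2 + 35 * x * y + 5 * y ^ 2 := by push_cast; ring
      have h2' : (((5 * x ^ 2 + 35 * x * y + 14 * y ^ 2 : ℕ) : ℤ) : ℝ) =
        5 * x ^ 2 + 35 * x * y + 14 * y ^ 2 := by push_cast; ring
      rw [h2, h2']
      refine (rem_two hx0 hhr hyr hy2 hθ0 hθ).trans ?_
      have h4 : (2 : ℝ) ≤ C ^ (2 + 1) := by
        calc (2 : ℝ) ≤ 100 ^ 3 := by norm_num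
          _ ≤ C ^ (2 + 1) := by gcongr
      have h5 : (2 : ℝ) * h ^ 5 / x ^ 3 ≤ C ^ (2 + 1) * h ^ 5 / x ^ 3 := by gcongr
      exact h5
    · push_cast
      nlinarith
    · push_cast
      nlinarith
  push Not at hc4
  -- case 5
  obtain ⟨ρ, hρ⟩ : ∃ ρ : ℝ, ρ = log X / log x := ⟨_, rfl⟩
  have hρX : log X = ρ * log x := by rw [hρ]; field_simp
  have hρ52 : 5.2 < ρ := by
    rw [hρ, lt_div_iff₀ hLpos]
    linarith
  obtain ⟨r, hr⟩ : ∃ r : ℕ, r = ⌊0.65 * ρ - 1.35⌋₊ := ⟨_, rfl⟩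
  have hr1 : (r : ℝ) ≤ 0.65 * ρ - 1.35 := by
    rw [hr]
    exact Nat.floor_le (by linarith)
  have hr2 : 0.65 * ρ - 2.35 < r := by
    rw [hr]
    have := Nat.lt_floor_add_one (0.65 * ρ - 1.35)
    linarith
  have hr3 : (2 : ℝ) ≤ r := by
    have h1 : 2 ≤ r := by
      rw [hr]
      apply Nat.le_floor
      push_cast
      linarith
    exact_mod_cast h1
  have h2hx : 2 * h ≤ x := by
    have : 2 * (h : ℝ) ≤ x := by linarith
    exact_mod_cast this
  have bnd : ∀ k : ℕ, |((b k x h : ℤ) : ℝ)| ≤ C ^ (k + 1) * (x : ℝ) ^ k ∧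
      |((a k x h : ℤ) : ℝ) - θ * (b k x h : ℤ)| ≤ C ^ (k + 1) * (h : ℝ) ^ (2 * k + 1) / (x : ℝ) ^ (k + 1) := by
    intro k
    obtain ⟨h1, h2⟩ := hab k x h hh h2hx
    have h3 : C0 ^ (k + 1) ≤ C ^ (k + 1) := pow_le_pow_left₀ (by linarith) hCC _
    constructor
    · refine h1.trans ?_
      gcongr
    · rw [hθdef]
      refine h2.trans ?_
      gcongr
  have e1 := D r (a r x h) (b r x h) (bnd r).1 (bnd r).2 hL ?_ ?_
  · have e2 := D (r + 1) (a (r + 1) x h) (b (r + 1) x h) (bnd (r + 1)).1 (bnd (r + 1)).2 hL ?_ ?_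
    · apply hind r x h hh h2hx
      have hPi : ((s1 * t2 : ℕ) : ℤ) ≠ 0 := by
        have := Nat.mul_pos hs1 ht2
        omega
      have hQi : ((t1 * s2 : ℕ) : ℤ) ≠ 0 := by
        have := Nat.mul_pos ht1 hs2
        omega
      apply mul_left_cancel₀ hPi
      linear_combination b (r + 1) x h * e1 - b r x h * e2
    · push_cast
      rw [hρX]
      nlinarith
    · push_cast
      rw [hρX]
      nlinarith
  · rw [hρX]
    nlinarith
  · rw [hρX]
    rcases le_or_gt ρ 6 with h6 | h6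
    · nlinarith
    · nlinarith

end Pool.Agent.CubeGap
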