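import Pool.Agent.NL.Pade

set_option autoImplicit false

/-!
# Integer Padé approximants of `(1 - h / x) ^ (1 / 3)`
-/

namespace Pool.Agent.CubeGap

open Finset Pool.Agent.NL

private theorem choose_ne_zero' (N : ℕ) (r : ℚ) (hr : -1 < r) :
    Ring.choose ((N : ℚ) + r) N ≠ 0 := by
  rw [Ring.choose_eq_smul, ← Polynomial.aeval_eq_smeval, ← Polynomial.eval_map_algebraMap,
    descPochhammer_map]
  have h : 0 < (descPochhammer ℚ N).eval ((N : ℚ) + r) := descPochhammer_pos (by linarith)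
  have hf : ((N.factorial : ℚ))⁻¹ ≠ 0 := inv_ne_zero (by exact_mod_cast N.factorial_ne_zero)
  exact smul_ne_zero hf h.ne'

private theorem PA_natDegree' (ν : ℚ) (N : ℕ) : (PA ν N).natDegree ≤ N := by
  unfold PA
  refine Polynomial.natDegree_sum_le_of_forall_le _ _ fun k hk => ?_
  exact (Polynomial.natDegree_monomial_le _).trans (by have := mem_range.mp hk; omega)

private theorem aeval_eq' (P : Polynomial ℚ) (N : ℕ) (hP : P.natDegree ≤ N) (z : ℝ) :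
    Polynomial.aeval z P = ∑ k ∈ range (N + 1), ((P.coeff k : ℚ) : ℝ) * z ^ k := by
  rw [Polynomial.aeval_eq_sum_range' (Nat.lt_succ_of_le hP)]
  refine sum_congr rfl fun k _ => ?_
  rw [Rat.smul_def]

private theorem exists_int' (s : ℚ) (hs : s = 1 ∨ s = -1) :
    ∃ a : ℕ → ℕ → ℕ → ℤ, (∀ N x h : ℕ, 0 < h → 2 * h ≤ x →
      (a N x h : ℝ) = (3 : ℝ) ^ (2 * N) * (x : ℝ) ^ N *
        Polynomial.aeval ((h : ℝ) / (x : ℝ)) (PA (s / ((3 : ℕ) : ℚ)) N)) ∧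
      ∀ N x h : ℕ, 0 < h → 2 * h ≤ x → |(a N x h : ℝ)| ≤
        (3 : ℝ) ^ (2 * N) * 8 ^ (N + 1) * ((N : ℝ) + 1) * (x : ℝ) ^ N := by
  choose m hm using fun N k => PA_coeff_integral 3 (by omega) s hs N k
  have hmR : ∀ N k, (m N k : ℝ) =
      (3 : ℝ) ^ (2 * N) * (((PA (s / ((3 : ℕ) : ℚ)) N).coeff k : ℚ) : ℝ) := by
    intro N k
    have := hm N k
    have h2 := congrArg (fun t : ℚ => (t : ℝ)) this
    push_cast at h2
    push_cast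
    exact h2.symm
  refine ⟨fun N x h => ∑ k ∈ range (N + 1), m N k * ((h : ℤ) ^ k * (x : ℤ) ^ (N - k)), ?_, ?_⟩
  · intro N x h hh hx
    have hx0 : (x : ℝ) ≠ 0 := by
      have : 0 < x := by omega
      positivity
    rw [aeval_eq' _ N (PA_natDegree' _ _)]
    push_cast
    rw [mul_sum]
    refine sum_congr rfl fun k hk => ?_
    have hk' : k ≤ N := Nat.le_of_lt_succ (mem_range.1 hk)
    rw [hmR]
    have : (x : ℝ) ^ N = (x : ℝ) ^ (N - k) * (x : ℝ) ^ k := by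
      rw [← pow_add, Nat.sub_add_cancel hk']
    rw [this, div_pow]
    push_cast
    field_simp
  · intro N x h hh hx
    have hx1 : (1 : ℝ) ≤ x := by exact_mod_cast (by omega : 1 ≤ x)
    have hhx : (h : ℝ) ≤ x := by exact_mod_cast (by omega : h ≤ x)
    push_cast
    refine (abs_sum_le_sum_abs _ _).trans ?_
    have hterm : ∀ k ∈ range (N + 1), |(m N k : ℝ) * ((h : ℝ) ^ k * (x : ℝ) ^ (N - k))| ≤
        (3 : ℝ) ^ (2 * N) * 8 ^ (N + 1) * (x : ℝ) ^ N := by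
      intro k hk
      have hk' : k ≤ N := Nat.le_of_lt_succ (mem_range.1 hk)
      rw [hmR, abs_mul, abs_mul, abs_of_nonneg (by positivity : (0 : ℝ) ≤ (3 : ℝ) ^ (2 * N)),
        abs_of_nonneg (by positivity : (0 : ℝ) ≤ (h : ℝ) ^ k * (x : ℝ) ^ (N - k))]
      have h1 : |(((PA (s / ((3 : ℕ) : ℚ)) N).coeff k : ℚ) : ℝ)| ≤ 8 ^ (N + 1) := by
        exact_mod_cast PA_coeff_le 3 (by omega) s hs N k
      have h2 : (h : ℝ) ^ k * (x : ℝ) ^ (N - k) ≤ (x : ℝ) ^ N := by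
        calc (h : ℝ) ^ k * (x : ℝ) ^ (N - k) ≤ (x : ℝ) ^ k * (x : ℝ) ^ (N - k) := by gcongr
          _ = (x : ℝ) ^ N := by rw [← pow_add]; congr 1; omega
      exact mul_le_mul (mul_le_mul_of_nonneg_left h1 (by positivity)) h2 (by positivity)
        (by positivity)
    refine (sum_le_sum hterm).trans ?_
    rw [sum_const, card_range, nsmul_eq_mul]
    push_cast
    apply le_of_eq
    ring

/-- Integer Padé approximants of `(1 - h / x) ^ (1 / 3)`. -/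
theorem pade3 : ∃ C : ℝ, 1 ≤ C ∧ ∃ a b : ℕ → ℕ → ℕ → ℤ,
    (∀ N x h : ℕ, 0 < h → 2 * h ≤ x → |(b N x h : ℝ)| ≤ C ^ (N + 1) * (x : ℝ) ^ N ∧
      |(a N x h : ℝ) - (1 - (h : ℝ) / (x : ℝ)) ^ ((1 : ℝ) / 3) * (b N x h : ℝ)| ≤
        C ^ (N + 1) * (h : ℝ) ^ (2 * N + 1) / (x : ℝ) ^ (N + 1)) ∧
    ∀ N x h : ℕ, 0 < h → 2 * h ≤ x → a N x h * b (N + 1) x h ≠ a (N + 1) x h * b N x h := by
  obtain ⟨a, ha, -⟩ := exists_int' 1 (Or.inl rfl)
  obtain ⟨b, hb, hb'⟩ := exists_int' (-1) (Or.inr rfl)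
  have hneg : ((-1 : ℚ) / ((3 : ℕ) : ℚ)) = -((1 : ℚ) / ((3 : ℕ) : ℚ)) := by ring
  rw [hneg] at hb
  have hqpow : ∀ N : ℕ, (3 : ℝ) ^ (2 * N) * 8 ^ (N + 1) * (2 : ℝ) ^ (N + 1) ≤
      (144 : ℝ) ^ (N + 1) := by
    intro N
    have e : (144 : ℝ) ^ (N + 1) = 3 ^ (2 * N) * 9 * 8 ^ (N + 1) * 2 ^ (N + 1) := by
      rw [show (144 : ℝ) = 9 * 8 * 2 by norm_num, mul_pow, mul_pow, pow_mul]
      norm_num [pow_succ]
    rw [e]
    have : (0 : ℝ) < 3 ^ (2 * N) * 8 ^ (N + 1) * 2 ^ (N + 1) := by positivity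
    nlinarith
  have hN2 : ∀ N : ℕ, ((N : ℝ) + 1) ≤ 2 ^ N := by
    intro N
    exact_mod_cast Nat.lt_two_pow_self
  refine ⟨144, by norm_num, a, b, ?_, ?_⟩
  · intro N x h hh hx
    have hx0 : (0 : ℝ) < x := by
      have : 0 < x := by omega
      positivity
    have hh0 : (0 : ℝ) < h := by exact_mod_cast hh
    constructor
    · refine (hb' N x h hh hx).trans ?_
      have h1 : ((N : ℝ) + 1) ≤ 2 ^ (N + 1) :=
        (hN2 N).trans (pow_le_pow_right₀ (by norm_num) (Nat.le_succ _))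
      calc (3 : ℝ) ^ (2 * N) * 8 ^ (N + 1) * ((N : ℝ) + 1) * (x : ℝ) ^ N
          ≤ (3 : ℝ) ^ (2 * N) * 8 ^ (N + 1) * (2 : ℝ) ^ (N + 1) * (x : ℝ) ^ N := by gcongr
        _ ≤ (144 : ℝ) ^ (N + 1) * (x : ℝ) ^ N := by
            gcongr
            exact hqpow N
    · rw [ha N x h hh hx, hb N x h hh hx]
      have hz : (0 : ℝ) < (h : ℝ) / (x : ℝ) := by positivity
      have hz2 : (h : ℝ) / x ≤ 1 / 2 := by
        rw [div_le_iff₀ hx0]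
        have : ((2 * h : ℕ) : ℝ) ≤ x := by exact_mod_cast hx
        push_cast at this
        linarith
      have hrem := remainder_le 3 (by omega) N ((h : ℝ) / (x : ℝ)) hz hz2
      have e3 : ((1 : ℝ) / ((3 : ℕ) : ℝ)) = (1 : ℝ) / 3 := by norm_num
      rw [e3] at hrem
      have heq : (3 : ℝ) ^ (2 * N) * (x : ℝ) ^ N *
            Polynomial.aeval ((h : ℝ) / (x : ℝ)) (PA ((1 : ℚ) / ((3 : ℕ) : ℚ)) N) -
          (1 - (h : ℝ) / (x : ℝ)) ^ ((1 : ℝ) / 3) * ((3 : ℝ) ^ (2 * N) * (x : ℝ) ^ N *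
            Polynomial.aeval ((h : ℝ) / (x : ℝ)) (PA (-((1 : ℚ) / ((3 : ℕ) : ℚ))) N)) =
          (3 : ℝ) ^ (2 * N) * (x : ℝ) ^ N *
          (Polynomial.aeval ((h : ℝ) / (x : ℝ)) (PA ((1 : ℚ) / ((3 : ℕ) : ℚ)) N) -
          (1 - (h : ℝ) / (x : ℝ)) ^ ((1 : ℝ) / 3) *
            Polynomial.aeval ((h : ℝ) / (x : ℝ)) (PA (-((1 : ℚ) / ((3 : ℕ) : ℚ))) N)) := by ring
      rw [heq, abs_mul, abs_of_nonneg (by positivity : (0 : ℝ) ≤ (3 : ℝ) ^ (2 * N) * (x : ℝ) ^ N)]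
      have h1 : (2 : ℝ) * ((N : ℝ) + 1) ≤ 2 ^ (N + 1) := by
        rw [pow_succ]
        linarith [hN2 N]
      calc (3 : ℝ) ^ (2 * N) * (x : ℝ) ^ N * |Polynomial.aeval ((h : ℝ) / (x : ℝ))
              (PA ((1 : ℚ) / ((3 : ℕ) : ℚ)) N) - (1 - (h : ℝ) / (x : ℝ)) ^ ((1 : ℝ) / 3) *
            Polynomial.aeval ((h : ℝ) / (x : ℝ)) (PA (-((1 : ℚ) / ((3 : ℕ) : ℚ))) N)|
          ≤ (3 : ℝ) ^ (2 * N) * (x : ℝ) ^ N * (2 * (N + 1) * 8 ^ (N + 1) *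
              ((h : ℝ) / (x : ℝ)) ^ (2 * N + 1)) := by gcongr
        _ = ((3 : ℝ) ^ (2 * N) * 8 ^ (N + 1) * (2 * ((N : ℝ) + 1))) *
              ((x : ℝ) ^ N * ((h : ℝ) / (x : ℝ)) ^ (2 * N + 1)) := by ring
        _ ≤ ((3 : ℝ) ^ (2 * N) * 8 ^ (N + 1) * 2 ^ (N + 1)) *
              ((x : ℝ) ^ N * ((h : ℝ) / (x : ℝ)) ^ (2 * N + 1)) := by gcongr
        _ ≤ (144 : ℝ) ^ (N + 1) * ((x : ℝ) ^ N * ((h : ℝ) / (x : ℝ)) ^ (2 * N + 1)) := by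
              gcongr
              exact hqpow N
        _ = (144 : ℝ) ^ (N + 1) * (h : ℝ) ^ (2 * N + 1) / (x : ℝ) ^ (N + 1) := by
              have e4 : (x : ℝ) ^ (2 * N + 1) = x ^ N * x ^ (N + 1) := by
                rw [← pow_add]; congr 1; omega
              rw [div_pow, e4]
              field_simp
  · intro N x h hh hx hcon
    have hx0 : (0 : ℝ) < x := by
      have : 0 < x := by omega
      positivity
    have hh0 : (0 : ℝ) < h := by exact_mod_cast hh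
    have hconR : (a N x h : ℝ) * b (N + 1) x h = a (N + 1) x h * b N x h := by exact_mod_cast hcon
    rw [ha N x h hh hx, hb N x h hh hx, ha (N + 1) x h hh hx, hb (N + 1) x h hh hx] at hconR
    have hw := congrArg (fun P : Polynomial ℚ => Polynomial.aeval ((h : ℝ) / (x : ℝ)) P)
      (pade_wronskian ((1 : ℚ) / ((3 : ℕ) : ℚ)) N)
    simp only [map_sub, map_mul, Polynomial.aeval_monomial] at hw
    have hz : (0 : ℝ) < (h : ℝ) / (x : ℝ) := by positivity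
    have hc1 : (0 : ℝ) < (3 : ℝ) ^ (2 * N) * (x : ℝ) ^ N := by positivity
    have hc2 : (0 : ℝ) < (3 : ℝ) ^ (2 * (N + 1)) * (x : ℝ) ^ (N + 1) := by positivity
    have hz0 : Polynomial.aeval ((h : ℝ) / (x : ℝ)) (PA ((1 : ℚ) / ((3 : ℕ) : ℚ)) N) *
        Polynomial.aeval ((h : ℝ) / (x : ℝ)) (PA (-((1 : ℚ) / ((3 : ℕ) : ℚ))) (N + 1)) -
        Polynomial.aeval ((h : ℝ) / (x : ℝ)) (PA ((1 : ℚ) / ((3 : ℕ) : ℚ)) (N + 1)) *
        Polynomial.aeval ((h : ℝ) / (x : ℝ)) (PA (-((1 : ℚ) / ((3 : ℕ) : ℚ))) N) = 0 := by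
      have h5 : ((3 : ℝ) ^ (2 * N) * (x : ℝ) ^ N) * ((3 : ℝ) ^ (2 * (N + 1)) * (x : ℝ) ^ (N + 1)) *
          (Polynomial.aeval ((h : ℝ) / (x : ℝ)) (PA ((1 : ℚ) / ((3 : ℕ) : ℚ)) N) *
        Polynomial.aeval ((h : ℝ) / (x : ℝ)) (PA (-((1 : ℚ) / ((3 : ℕ) : ℚ))) (N + 1)) -
        Polynomial.aeval ((h : ℝ) / (x : ℝ)) (PA ((1 : ℚ) / ((3 : ℕ) : ℚ)) (N + 1)) *
        Polynomial.aeval ((h : ℝ) / (x : ℝ)) (PA (-((1 : ℚ) / ((3 : ℕ) : ℚ))) N)) = 0 := by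
        linear_combination hconR
      rcases mul_eq_zero.1 h5 with h6 | h6
      · exact absurd h6 (by positivity)
      · exact h6
    rw [hz0] at hw
    have hc1 := choose_ne_zero' N ((1 : ℚ) / ((3 : ℕ) : ℚ)) (by norm_num)
    have hc2' : Ring.choose ((N : ℚ) - (1 : ℚ) / ((3 : ℕ) : ℚ)) N ≠ 0 := by
      rw [sub_eq_add_neg]
      exact choose_ne_zero' N (-((1 : ℚ) / ((3 : ℕ) : ℚ))) (by norm_num)
    have hne : (-(Ring.choose ((N : ℚ) + (1 : ℚ) / ((3 : ℕ) : ℚ)) N *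
        Ring.choose ((N : ℚ) - (1 : ℚ) / ((3 : ℕ) : ℚ)) N *
        (-2 * ((1 : ℚ) / ((3 : ℕ) : ℚ)) / (N + 1)))) ≠ 0 := by
      refine neg_ne_zero.2 (mul_ne_zero (mul_ne_zero hc1 hc2') ?_)
      refine div_ne_zero ?_ (by positivity)
      norm_num
    have hne' : (algebraMap ℚ ℝ) (-(Ring.choose ((N : ℚ) + (1 : ℚ) / ((3 : ℕ) : ℚ)) N *
        Ring.choose ((N : ℚ) - (1 : ℚ) / ((3 : ℕ) : ℚ)) N *
        (-2 * ((1 : ℚ) / ((3 : ℕ) : ℚ)) / (N + 1)))) ≠ 0 := by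
      intro h
      exact hne ((map_eq_zero _).1 h)
    exact (mul_ne_zero hne' (pow_ne_zero _ hz.ne')) hw.symm

end Pool.Agent.CubeGap
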